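import Pool.Agent.H94.C1.FIN1
import Pool.Agent.H84.BR.ClaimDefs

/-!
# The theorem (second half of the row FIN of the board `c1_modules`)
-/

set_option autoImplicit false

namespace Pool.Agent.H94.C1

open MeasureTheory Set Filter FourierTransform
open scoped ENNReal NNReal SchwartzMap Topology
open Pool.Agent.H73.LS (measurable_F integrable_F MI fourierInv_MI measurable_MI continuous_eta0
  eta0_one eta0_zero)
open H83.LS (MK MM eta0 chi)
open H82.KL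

variable {d : ℕ}

/-! ### symbols -/

lemma chi_zero_small {s : ℝ} (h : s ≤ 1 / 2) : chi s = 0 := by
  unfold H83.LS.chi
  rw [eta0_one (by linarith), eta0_one (by linarith), sub_self]

lemma chi_zero_large {s : ℝ} (h : 2 ≤ s) : chi s = 0 := by
  unfold H83.LS.chi
  rw [eta0_zero h, eta0_zero (by linarith), sub_self]

lemma contDiff_chi : ContDiff ℝ (⊤ : ℕ∞) chi := by
  have h : ContDiff ℝ (⊤ : ℕ∞) eta0 := by
    unfold H83.LS.eta0
    exact Real.smoothTransition.contDiff.comp (contDiff_const.sub contDiff_id)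
  unfold H83.LS.chi
  exact h.sub (h.comp (contDiff_const.mul contDiff_id))

lemma sym_of (g : EE d → ℝ) (hg : ∀ ξ, ξ ≠ 0 → ContDiffAt ℝ (⊤ : ℕ∞) g ξ) :
    Sym (fun ξ : EE d => ((g ξ * chi ‖ξ‖ : ℝ) : ℂ)) := by
  have hsub : tsupport (fun ξ : EE d => ((g ξ * chi ‖ξ‖ : ℝ) : ℂ)) ⊆
      {ξ | 1 / 2 ≤ ‖ξ‖} ∩ Metric.closedBall 0 2 := by
    refine closure_minimal ?_ ((isClosed_le continuous_const continuous_norm).inter
      Metric.isClosed_closedBall)
    intro ξ hξ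
    rw [Function.mem_support] at hξ
    refine ⟨?_, ?_⟩
    · by_contra h
      apply hξ
      have h' : ‖ξ‖ < 1 / 2 := not_le.mp h
      rw [chi_zero_small h'.le, mul_zero, Complex.ofReal_zero]
    · rw [mem_closedBall_zero_iff]
      by_contra h
      apply hξ
      rw [chi_zero_large (not_le.mp h).le, mul_zero, Complex.ofReal_zero]
  refine ⟨?_, ?_, ?_⟩
  · rw [contDiff_iff_contDiffAt]
    intro ξ
    by_cases hξ : ξ = 0
    · have h1 : (fun ξ : EE d => ((g ξ * chi ‖ξ‖ : ℝ) : ℂ)) =ᶠ[𝓝 ξ] fun _ => 0 := by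
        rw [hξ]
        filter_upwards [Metric.ball_mem_nhds (0 : EE d) (by norm_num : (0 : ℝ) < 1 / 2)] with x hx
        rw [mem_ball_zero_iff] at hx
        rw [chi_zero_small hx.le, mul_zero, Complex.ofReal_zero]
      exact contDiffAt_const.congr_of_eventuallyEq h1
    · exact Complex.ofRealCLM.contDiff.contDiffAt.comp ξ ((hg ξ hξ).mul
        (contDiff_chi.contDiffAt.comp ξ (contDiffAt_norm ℝ hξ)))
  · exact HasCompactSupport.of_support_subset_isCompact (isCompact_closedBall (0 : EE d) 2)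
      ((subset_tsupport _).trans (hsub.trans inter_subset_right))
  · intro h
    have := (hsub h).1
    rw [Set.mem_ofPred_eq, norm_zero] at this
    norm_num at this

/-- the cosine symbol -/
noncomputable def ct (t : ℝ) (ξ : EE d) : ℝ := Real.cos (2 * Real.pi * t * ‖ξ‖)

/-- the symbol `sin(2πt|ξ|) ξ_j/|ξ|` -/
noncomputable def st (j : Fin d) (t : ℝ) (ξ : EE d) : ℝ :=
  Real.sin (2 * Real.pi * t * ‖ξ‖) * (ξ j / ‖ξ‖)

lemma measurable_ct : Measurable (fun q : ℝ × EE d => ct q.1 q.2) := by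
  unfold ct
  exact (Real.continuous_cos.comp (by fun_prop)).measurable

lemma measurable_st (j : Fin d) : Measurable (fun q : ℝ × EE d => st j q.1 q.2) := by
  unfold st
  refine Measurable.mul (Real.continuous_sin.comp (by fun_prop)).measurable (Measurable.div ?_ ?_)
  · have : Continuous (fun q : ℝ × EE d => q.2 j) := by fun_prop
    exact this.measurable
  · fun_prop

lemma ct_le (t : ℝ) (ξ : EE d) : |ct t ξ| ≤ 1 := Real.abs_cos_le_one _

lemma st_le (j : Fin d) (t : ℝ) (ξ : EE d) : |st j t ξ| ≤ 1 := by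
  unfold st
  rw [abs_mul, abs_div, abs_norm]
  have h1 : |ξ j| ≤ ‖ξ‖ := by
    have := PiLp.norm_apply_le ξ j
    rwa [Real.norm_eq_abs] at this
  have h2 : |ξ j| / ‖ξ‖ ≤ 1 := div_le_one_of_le₀ h1 (norm_nonneg _)
  calc |Real.sin (2 * Real.pi * t * ‖ξ‖)| * (|ξ j| / ‖ξ‖) ≤ 1 * 1 :=
        mul_le_mul (Real.abs_sin_le_one _) h2 (by positivity) zero_le_one
    _ = 1 := one_mul _

lemma e_eq (x : ℝ) : e x = (Real.cos (2 * Real.pi * x) : ℂ) + (Real.sin (2 * Real.pi * x) : ℂ) *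
    Complex.I := by
  unfold e
  rw [Complex.exp_mul_I, ← Complex.ofReal_cos, ← Complex.ofReal_sin]

lemma half_ct : Half (d := d) ct (fun ξ => (((1 : ℝ) * chi ‖ξ‖ : ℝ) : ℂ)) := by
  refine ⟨1 / 2, 1 / 2, by norm_num, by norm_num, fun t lam ξ hl => ?_⟩
  have h1 : ‖lam⁻¹ • ξ‖ = ‖ξ‖ / lam := by
    rw [norm_smul, norm_inv, Real.norm_eq_abs, abs_of_pos hl]
    ring
  beta_reduce
  rw [h1, e_eq, e_eq]
  unfold ct
  have h2 : 2 * Real.pi * (1 * t * ‖ξ‖) = 2 * Real.pi * t * ‖ξ‖ := by ring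
  have h3 : 2 * Real.pi * (-1 * t * ‖ξ‖) = -(2 * Real.pi * t * ‖ξ‖) := by ring
  rw [h2, h3, Real.cos_neg, Real.sin_neg]
  push_cast
  ring

lemma half_st (j : Fin d) : Half (st j) (fun ξ => ((ξ j / ‖ξ‖ * chi ‖ξ‖ : ℝ) : ℂ)) := by
  refine ⟨-Complex.I / 2, Complex.I / 2, ?_, ?_, fun t lam ξ hl => ?_⟩
  · rw [norm_div, norm_neg, Complex.norm_I]
    norm_num
  · rw [norm_div, Complex.norm_I]
    norm_num
  have h1 : ‖lam⁻¹ • ξ‖ = ‖ξ‖ / lam := by
    rw [norm_smul, norm_inv, Real.norm_eq_abs, abs_of_pos hl]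
    ring
  have h4 : (lam⁻¹ • ξ) j / ‖lam⁻¹ • ξ‖ = ξ j / ‖ξ‖ := by
    rw [h1, PiLp.smul_apply, smul_eq_mul, inv_mul_eq_div, div_div_div_cancel_right₀ hl.ne']
  beta_reduce
  rw [h4, h1, e_eq, e_eq]
  unfold st
  have h2 : 2 * Real.pi * (1 * t * ‖ξ‖) = 2 * Real.pi * t * ‖ξ‖ := by ring
  have h3 : 2 * Real.pi * (-1 * t * ‖ξ‖) = -(2 * Real.pi * t * ‖ξ‖) := by ring
  rw [h2, h3, Real.cos_neg, Real.sin_neg]
  push_cast
  ring_nf
  rw [Complex.I_sq]
  ring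

lemma sym_ct : Sym (fun ξ : EE d => (((1 : ℝ) * chi ‖ξ‖ : ℝ) : ℂ)) :=
  sym_of (fun _ => 1) fun _ _ => contDiffAt_const

lemma sym_st (j : Fin d) : Sym (fun ξ : EE d => ((ξ j / ‖ξ‖ * chi ‖ξ‖ : ℝ) : ℂ)) := by
  refine sym_of (fun ξ => ξ j / ‖ξ‖) fun ξ hξ => ?_
  have h1 : ContDiff ℝ (⊤ : ℕ∞) (fun ξ : EE d => ξ j) := by fun_prop
  exact h1.contDiffAt.div (contDiffAt_norm ℝ hξ) (norm_ne_zero_iff.mpr hξ)

/-! ### the divergence -/

lemma fourier_div (G : Fin d → 𝓢(EE d, ℂ)) (ξ : EE d) :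
    𝓕 (fun y => ∑ j, fderiv ℝ (G j) y (ei j)) ξ =
      ∑ j, 2 * (Real.pi : ℂ) * Complex.I * ((ξ j : ℝ) : ℂ) * 𝓕 (G j : EE d → ℂ) ξ := by
  have h1 : ∀ j, 𝓕 (fun y => fderiv ℝ (G j) y (ei j)) ξ =
      2 * (Real.pi : ℂ) * Complex.I * ((ξ j : ℝ) : ℂ) * 𝓕 (G j : EE d → ℂ) ξ := by
    intro j
    have h2 : (fun y => fderiv ℝ (G j) y (ei j)) =
        ⇑(LineDeriv.lineDerivOp (ei j) (G j) : 𝓢(EE d, ℂ)) := rfl
    rw [h2, ← SchwartzMap.fourier_coe, SchwartzMap.fourier_lineDerivOp_eq,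
      ← SchwartzMap.fourier_coe]
    have h3 : (fun y : EE d => inner ℝ y (ei j)).HasTemperateGrowth :=
      ((innerSL ℝ).flip (ei j)).hasTemperateGrowth
    rw [smul_apply, SchwartzMap.smulLeftCLM_apply_apply h3]
    have h4 : inner ℝ ξ (ei j) = ξ j := by
      simp [ei, EuclideanSpace.inner_single_right]
    rw [h4, smul_eq_mul, Complex.real_smul]
    ring
  have h5 : (fun y => ∑ j, fderiv ℝ (G j) y (ei j)) =
      ⇑(∑ j, LineDeriv.lineDerivOp (ei j) (G j) : 𝓢(EE d, ℂ)) := by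
    funext y
    rw [sum_apply]
    rfl
  have h6 : 𝓕 (∑ j, LineDeriv.lineDerivOp (ei j) (G j) : 𝓢(EE d, ℂ)) =
      ∑ j, 𝓕 (LineDeriv.lineDerivOp (ei j) (G j) : 𝓢(EE d, ℂ)) :=
    map_sum (FourierTransform.fourierCLM ℂ 𝓢(EE d, ℂ)) _ _
  rw [h5, ← SchwartzMap.fourier_coe, h6, sum_apply]
  refine Finset.sum_congr rfl fun j _ => ?_
  rw [← h1 j, SchwartzMap.fourier_coe]
  rfl

end Pool.Agent.H94.C1
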