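import Pool.Agent.H94.C1.Chain
import Pool.Agent.H90.C1.PIE

/-!
# The theorem of the board `c1_modules`
-/

set_option autoImplicit false

namespace Pool.Agent.H94.C1

theorem pie : T_PIE := Pool.Agent.H90.C1.pf_PIE Chain.res Chain.hol Chain.der

theorem fin2 : T_FIN2 := pf_FIN2 Chain.asm pie Chain.sch Chain.sum Chain.lowf Chain.lowv

end Pool.Agent.H94.C1
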