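import Pool.Agent.H94.C1.Defs

/-!
Local smoothing for data carried by sparse sets, all dimensions: targets.
-/

set_option autoImplicit false

namespace Pool.Agent.H94.C1

open MeasureTheory Set FourierTransform Pool.Agent.H82.KL
open scoped ENNReal NNReal SchwartzMap

/-! ### waves on space-like graphs -/

/-- SYM: operations on symbols -/
def T_SYM : Prop := ∀ (d : ℕ) (b : EE d → ℂ), Sym b → (∀ j, Sym (mc j b)) ∧ Sym (mn b) ∧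
  (∀ j, Sym (pd j b)) ∧ (∀ s, Sym (sh s b)) ∧ (∃ c : EE d → ℂ, Sym c ∧ mn c = b) ∧
  (∀ h : EE d → ℂ, ContDiff ℝ (⊤ : ℕ∞) h → Sym (fun ξ => b ξ * h ξ))

/-- DIF: derivatives of `U b` -/
def T_DIF : Prop := ∀ (d : ℕ) (b : EE d → ℂ), Sym b → ContDiff ℝ 1 (U b) ∧
  ∀ z v : EE d × ℝ, fderiv ℝ (U b) z v = 2 * (Real.pi : ℂ) * Complex.I *
    (∑ j, ((v.1 j : ℝ) : ℂ) * U (mc j b) z + ((v.2 : ℝ) : ℂ) * U (mn b) z)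

/-- DEC: decay of `U b (x,t)` for bounded `t` -/
def T_DEC : Prop := ∀ (d N : ℕ) (B : ℝ) (b : EE d → ℂ), 1 ≤ d → Sym b → ∃ C : ℝ, 0 ≤ C ∧
  ∀ (x : EE d) (t : ℝ), |t| ≤ B → ‖U b (x, t)‖ ≤ C * ((1 + ‖x‖) ^ N)⁻¹

/-- PLU: Plancherel for `U b (·,t)` -/
def T_PLU : Prop := ∀ (d : ℕ) (b : EE d → ℂ) (t : ℝ), Sym b →
  ∫⁻ x : EE d, ‖U b (x, t)‖ₑ ^ 2 = ∫⁻ ξ, ‖b ξ‖ₑ ^ 2

/-- DIV: the integral of a derivative vanishes -/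
def T_DIV : Prop := ∀ (d : ℕ) (j : Fin d) (V : EE d → ℝ), ContDiff ℝ 1 V → Integrable V →
  Integrable (fun x => fderiv ℝ V x (ei j)) → ∫ x, fderiv ℝ V x (ei j) = 0

/-- FLA: the flux through the graph of `sφ` does not depend on `s` -/
def T_FLA : Prop := ∀ (d : ℕ) (b : EE d → ℂ) (φ : EE d → ℝ) (B : ℝ), 1 ≤ d → Sym b →
  ContDiff ℝ 1 φ → (∀ x, |φ x| ≤ B) → (∀ x, ‖fderiv ℝ φ x‖ ≤ 1) →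
  Integrable (fl b φ 1) ∧ ∫ x, fl b φ 1 x = ∫ x, fl b φ 0 x

/-- FLB: energy on the graph of a bounded function with gradient at most one -/
def T_FLB : Prop := ∀ (d : ℕ) (b : EE d → ℂ) (φ : EE d → ℝ) (B : ℝ), 1 ≤ d → Sym b →
  ContDiff ℝ 1 φ → (∀ x, |φ x| ≤ B) → (∀ x, ‖fderiv ℝ φ x‖ ≤ 1) →
  ∫⁻ x, ENNReal.ofReal (gr (onG b φ) x) ≤
    ENNReal.ofReal (8 * Real.pi ^ 2) * ∫⁻ ξ, ‖mn b ξ‖ₑ ^ 2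

/-- HRD: Hardy's inequality with the weight `1/(1+|x|²)` -/
def T_HRD : Prop := ∀ (d : ℕ) (H : EE d → ℂ) (C : ℝ), 3 ≤ d → ContDiff ℝ 1 H →
  (∀ x, ‖H x‖ ≤ C * ((1 + ‖x‖) ^ (d + 2))⁻¹) →
  (∀ x, ‖fderiv ℝ H x‖ ≤ C * ((1 + ‖x‖) ^ (d + 2))⁻¹) →
  ENNReal.ofReal (((d : ℝ) - 2) ^ 2 / 4) * ∫⁻ x, ‖H x‖ₑ ^ 2 * wt x ≤
    ∫⁻ x, ENNReal.ofReal (gr H x)

/-- APX: approximation of `√(1+|x|²)` by bounded functions with gradient at most one -/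
def T_APX : Prop := ∀ d : ℕ, ∃ φ : ℕ → EE d → ℝ, (∀ n, ContDiff ℝ 1 (φ n)) ∧
  (∀ n, ∃ B : ℝ, ∀ x, |φ n x| ≤ B) ∧ (∀ n x, ‖fderiv ℝ (φ n) x‖ ≤ 1) ∧
  (∀ x, Filter.Tendsto (fun n => φ n x) Filter.atTop (nhds (hy x))) ∧
  (∀ x j, Filter.Tendsto (fun n => fderiv ℝ (φ n) x (ei j)) Filter.atTop
    (nhds (fderiv ℝ hy x (ei j)))) ∧ ContDiff ℝ 1 (hy (d := d)) ∧
  ∀ (x : EE d) j, fderiv ℝ hy x (ei j) = x j / hy x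

/-- FLX: energy and Hardy's inequality on the hyperboloid `t = √(1+|x|²)` -/
def T_FLX : Prop := ∀ (d : ℕ) (b : EE d → ℂ), 3 ≤ d → Sym b →
  (∫⁻ x, ENNReal.ofReal (gr (onG b hy) x) ≤
    ENNReal.ofReal (8 * Real.pi ^ 2) * ∫⁻ ξ, ‖mn b ξ‖ₑ ^ 2) ∧
  ENNReal.ofReal (((d : ℝ) - 2) ^ 2 / 4) * ∫⁻ x, ‖onG b hy x‖ₑ ^ 2 * wt x ≤
    ENNReal.ofReal (8 * Real.pi ^ 2) * ∫⁻ ξ, ‖mn b ξ‖ₑ ^ 2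

/-- IDN: derivatives of a wave along the hyperboloid -/
def T_IDN : Prop := ∀ (d : ℕ) (b : EE d → ℂ) (j : Fin d) (x : EE d), Sym b →
  ((hy x : ℝ) : ℂ) * fderiv ℝ (onG b hy) x (ei j) = -U (pd j (mn b)) (x, hy x)

/-- HWA: weighted estimates on the hyperboloid for waves with symbols `∂_j c` and `c` -/
def T_HWA : Prop := ∀ d : ℕ, 3 ≤ d → ∃ C : ℝ≥0, ∀ c : EE d → ℂ, Sym c →
  (∀ j, ∫⁻ x : EE d, ‖U (pd j c) (x, hy x)‖ₑ ^ 2 * wt x ≤ C * ∫⁻ ξ, ‖c ξ‖ₑ ^ 2) ∧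
  ∫⁻ x : EE d, ‖U c (x, hy x)‖ₑ ^ 2 * wt x ≤ C * ∫⁻ ξ, ‖mn c ξ‖ₑ ^ 2

/-- WF: waves with compactly supported initial positions -/
def T_WF : Prop := ∀ (d : ℕ) (f : EE d → ℂ), BC f → ContDiff ℝ (⊤ : ℕ∞) (𝓕 f) ∧
  (∫⁻ ξ, ‖𝓕 f ξ‖ₑ ^ 2 = ∫⁻ y, ‖f y‖ₑ ^ 2) ∧
  (∀ (j : Fin d) (ξ : EE d), fderiv ℝ (𝓕 f) ξ (ei j) =
    -(2 * (Real.pi : ℂ) * Complex.I) * 𝓕 (fun y => ((y j : ℝ) : ℂ) * f y) ξ) ∧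
  ∀ (a : EE d → ℂ) (z : EE d × ℝ), Sym a → W a f z = U (fun ξ => a ξ * 𝓕 f ξ) z

/-- HW: weighted estimate on the translates of the hyperboloid -/
def T_HW : Prop := ∀ (d : ℕ) (a : EE d → ℂ), 3 ≤ d → Sym a → ∃ C : ℝ≥0,
  ∀ (s : ℝ) (f : EE d → ℂ), BC f →
  ∫⁻ x : EE d, ‖W a f (x, hy x + s)‖ₑ ^ 2 * wt x ≤
    C * ENNReal.ofReal ((1 + |s|) ^ 2) * ∫⁻ y, ‖f y‖ₑ ^ 2 * wt y

/-! ### weighted estimates near light cones -/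

/-- TW: weighted estimate near the light cone of `y` -/
def T_TW : Prop := ∀ (d : ℕ) (a : EE d → ℂ), 3 ≤ d → Sym a → ∃ C : ℝ≥0,
  ∀ (R : ℝ) (y : EE d) (f : EE d → ℂ), 1 ≤ R → BC f →
  ∫⁻ t in Icc R (2 * R), ∫⁻ x : EE d, ‖W a f (x, t)‖ₑ ^ 2 *
      ENNReal.ofReal (((1 + abs (‖x - y‖ - t)) ^ (d + 8))⁻¹) ≤
    C * ENNReal.ofReal (R ^ 2) * ∫⁻ z, ‖f z‖ₑ ^ 2 * wt (z - y)

/-- TWG: the same, averaged in `y` -/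
def T_TWG : Prop := ∀ (d : ℕ) (a : EE d → ℂ), 3 ≤ d → Sym a → ∃ C : ℝ≥0,
  ∀ (R : ℝ) (g : EE d → ℝ≥0∞) (f : EE d → ℂ), 1 ≤ R → BC f → Measurable g →
  ∫⁻ t in Icc R (2 * R), ∫⁻ x : EE d, ‖W a f (x, t)‖ₑ ^ 2 * av g (x, t) ≤
    C * ∫⁻ z, ‖f z‖ₑ ^ 2 * ka R g z

/-- WL2: measurability and the `L²` estimate -/
def T_WL2 : Prop := ∀ (d : ℕ) (a : EE d → ℂ), Sym a → ∃ C : ℝ≥0,
  ∀ (R : ℝ) (f : EE d → ℂ), 1 ≤ R → BC f → Continuous (W a f) ∧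
  ∫⁻ t in Icc R (2 * R), ∫⁻ x : EE d, ‖W a f (x, t)‖ₑ ^ 2 ≤
    C * ENNReal.ofReal R * ∫⁻ y, ‖f y‖ₑ ^ 2

/-- PT: pointwise bound by averages over light cones -/
def T_PT : Prop := ∀ (d : ℕ) (a : EE d → ℂ), 1 ≤ d → Sym a → ∃ C : ℝ≥0,
  ∀ (R : ℝ) (f : EE d → ℂ) (z : EE d × ℝ), 1 ≤ R → R ≤ z.2 → z.2 ≤ 2 * R →
  ‖W a f z‖ₑ ≤ C * ENNReal.ofReal (R ^ (-(((d : ℝ) - 1) / 2))) * av (fun y => ‖f y‖ₑ) z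

/-- INT: interpolation with change of weight -/
def T_INT : Prop := ∀ (α β : Type) [MeasurableSpace α] [MeasurableSpace β] (μ : Measure α)
  (ν : Measure β) [SFinite μ] [SFinite ν] (θ : ℝ) (F : Set α → β → ℝ≥0∞) (f w : α → ℝ≥0∞)
  (v : β → ℝ≥0∞) (A r : ℝ≥0∞), 0 < θ → θ < 1 → r ≠ 0 → r ≠ ⊤ →
  (∀ S, MeasurableSet S → Measurable (F S)) → Measurable f → Measurable w → Measurable v →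
  (∀ S, MeasurableSet S → ∀ z, F univ z ≤ F S z + F Sᶜ z) →
  (∀ S, MeasurableSet S → ∫⁻ z, F S z ^ 2 ∂ν ≤ A * ∫⁻ y in S, f y * r ∂μ) →
  (∀ S, MeasurableSet S → ∫⁻ z, F S z ^ 2 * v z ∂ν ≤ A * ∫⁻ y in S, f y * w y ∂μ) →
  ∫⁻ z, F univ z ^ 2 * v z ^ θ ∂ν ≤ 2 * A * ∫⁻ y, f y * (r ^ (1 - θ) * w y ^ θ) ∂μ

/-- JEN: Jensen's inequality for the averages -/
def T_JEN : Prop := ∀ (d : ℕ) (q : ℝ), 1 ≤ d → 1 ≤ q → ∃ C : ℝ≥0,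
  ∀ (R : ℝ) (g : EE d → ℝ≥0∞) (z : EE d × ℝ), 1 ≤ R → R ≤ z.2 → z.2 ≤ 2 * R → Measurable g →
  av g z ^ q ≤ C * ENNReal.ofReal (R ^ (((d : ℝ) - 1) * (q - 1))) * av (fun y => g y ^ q) z

/-- KIA: kernel inequality at frequency one and time `R`, `2 < p < 3` -/
def T_KIA : Prop := ∀ (d : ℕ) (p : ℝ) (a : EE d → ℂ), 3 ≤ d → 2 < p → p < 3 → Sym a →
  ∃ C : ℝ≥0, ∀ (R : ℝ) (f : EE d → ℂ), 1 ≤ R → BC f →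
  ∫⁻ t in Icc R (2 * R), ∫⁻ x : EE d, ‖W a f (x, t)‖ₑ ^ p ≤
    C * ENNReal.ofReal (R ^ (3 - p - ((d : ℝ) - 1) * (p - 2) / 2)) *
      ∫⁻ x, ‖f x‖ₑ ^ 2 * ka R (fun y => ‖f y‖ₑ) x ^ (p - 2)

/-- KIB: kernel inequality at frequency one and time `R`, `p ≥ 3` -/
def T_KIB : Prop := ∀ (d : ℕ) (p : ℝ) (a : EE d → ℂ), 3 ≤ d → 3 ≤ p → Sym a →
  ∃ C : ℝ≥0, ∀ (R : ℝ) (f : EE d → ℂ), 1 ≤ R → BC f →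
  ∫⁻ t in Icc R (2 * R), ∫⁻ x : EE d, ‖W a f (x, t)‖ₑ ^ p ≤
    C * ENNReal.ofReal (R ^ (((d : ℝ) - 1) * (p - 3) - ((d : ℝ) - 1) * (p - 2) / 2)) *
      ∫⁻ x, ‖f x‖ₑ ^ 2 * ka R (fun y => ‖f y‖ₑ ^ (p - 2)) x

/-- KIS: kernel inequality at frequency one and time `±R`, all bounded integrable functions -/
def T_KIS : Prop := ∀ (d : ℕ) (p : ℝ) (a : EE d → ℂ), 3 ≤ d → 2 < p → Sym a →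
  ∃ C : ℝ≥0, ∀ (R ε : ℝ) (f : EE d → ℂ), 1 ≤ R → (ε = 1 ∨ ε = -1) → BM f →
  ∫⁻ t in Icc R (2 * R), ∫⁻ x : EE d, ‖W a f (x, ε * t)‖ₑ ^ p ≤
    C * (if p ≤ 3 then
      ENNReal.ofReal (R ^ (3 - p - ((d : ℝ) - 1) * (p - 2) / 2)) *
        ∫⁻ x, ‖f x‖ₑ ^ 2 * ka R (fun y => ‖f y‖ₑ) x ^ (p - 2)
      else ENNReal.ofReal (R ^ (((d : ℝ) - 1) * (p - 3) - ((d : ℝ) - 1) * (p - 2) / 2)) *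
        ∫⁻ x, ‖f x‖ₑ ^ 2 * ka R (fun y => ‖f y‖ₑ ^ (p - 2)) x)

/-- SCL: rescaling of the half wave operators -/
def T_SCL : Prop := ∀ (d : ℕ) (a : EE d → ℂ) (ε lam t : ℝ) (u : 𝓢(EE d, ℂ)) (x : EE d),
  Sym a → 0 < lam → HP a ε lam t u x = W a (fun y => u (lam⁻¹ • y)) (lam • x, ε * (lam * t))

/-- RES: kernel inequality at frequency `λ` and time one -/
def T_RES : Prop := ∀ (d : ℕ) (p : ℝ) (a : EE d → ℂ), 3 ≤ d → 2 < p → Sym a →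
  ∃ C : ℝ≥0, ∀ (lam ε : ℝ) (u : 𝓢(EE d, ℂ)), 1 ≤ lam → (ε = 1 ∨ ε = -1) →
  ∫⁻ t in Icc (1 : ℝ) 2, ∫⁻ x : EE d, ‖HP a ε lam t u x‖ₑ ^ p ≤
    C * ENNReal.ofReal (lam ^ (((d : ℝ) - 1) * (p - 2) / 2)) * KK p u

/-! ### sparse sets -/

/-- SCH: the kernel `|x-y|^(-2)` on sparse sets -/
def T_SCH : Prop := ∀ (d : ℕ) (a τ A : ℝ), 3 ≤ d → 0 ≤ A → τ ≤ d - 2 → τ < d - a → ∃ C : ℝ≥0,
  ∀ (δ : ℝ) (E : Set (EE d)) (x : EE d), 0 < δ → δ ≤ 1 →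
  volume E ≤ ENNReal.ofReal (A * δ ^ ((d : ℝ) - a)) →
  (∀ r : ℝ, δ ≤ r → r ≤ 1 →
    volume (E ∩ Metric.ball x r) ≤ ENNReal.ofReal (A * δ ^ ((d : ℝ) - a) * r ^ a)) →
  ∫⁻ y in E, (‖x - y‖ₑ ^ 2)⁻¹ ≤ C * ENNReal.ofReal (δ ^ τ)

/-- HOL: Hölder's inequality and Schur's test -/
def T_HOL : Prop := ∀ (d : ℕ) (p : ℝ) (E : Set (EE d)) (S : ℝ≥0∞) (u : EE d → ℂ), 2 < p →
  MeasurableSet E → (∀ x ∈ E, ∫⁻ y in E, (‖x - y‖ₑ ^ 2)⁻¹ ≤ S) → Measurable u →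
  (∀ x, x ∉ E → u x = 0) → KK p u ≤ S ^ (min 1 (p - 2)) * ∫⁻ x, ‖u x‖ₑ ^ p

/-- DER: high frequencies in terms of derivatives -/
def T_DER : Prop := ∀ (d K : ℕ) (a : EE d → ℂ), Sym a →
  ∃ b : (Fin K → Fin d) → EE d → ℂ, (∀ J, Sym (b J)) ∧
  ∀ (u : 𝓢(EE d, ℂ)), ∃ v : (Fin K → Fin d) → 𝓢(EE d, ℂ),
    (∀ J x, v J x = iteratedFDeriv ℝ K u x (fun i => ei (J i))) ∧
    ∀ (lam ε t : ℝ) (x : EE d), 0 < lam →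
      (2 * (Real.pi : ℂ) * Complex.I * (lam : ℂ)) ^ K * HP a ε lam t u x =
        ∑ J, HP (b J) ε lam t (v J) x

/-- LOWV: low frequencies of `sin(t|D|) ∂_j/|D|` -/
def T_LOWV : Prop := ∀ d : ℕ, 2 ≤ d → ∃ C : ℝ≥0, ∀ t ∈ Icc (0 : ℝ) 2, ∀ j : Fin d,
  ∫⁻ x : EE d, ‖H83.LS.MK (fun ξ : EE d => ((H83.LS.eta0 ‖ξ‖ *
    (Real.sin (2 * Real.pi * t * ‖ξ‖) * (ξ j / ‖ξ‖)) : ℝ) : ℂ)) x‖ₑ ≤ C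

/-- ASM: dyadic decomposition -/
def T_ASM : Prop := ∀ (d : ℕ) (p : ℝ) (c : ℝ → EE d → ℝ) (u : 𝓢(EE d, ℂ)) (C : ℝ≥0), 1 ≤ p →
  Measurable (fun q : ℝ × EE d => c q.1 q.2) → (∀ t ξ, |c t ξ| ≤ 1) →
  (∀ t ∈ Icc (1 : ℝ) 2, ∫⁻ x : EE d,
    ‖H83.LS.MK (fun ξ : EE d => ((H83.LS.eta0 ‖ξ‖ * c t ξ : ℝ) : ℂ)) x‖ₑ ≤ C) →
  (∫⁻ t in Icc (1 : ℝ) 2, ∫⁻ x : EE d,
      ‖𝓕⁻ (fun ξ : EE d => ((c t ξ : ℝ) : ℂ) * 𝓕 (u : EE d → ℂ) ξ) x‖ₑ ^ p) ^ (1 / p) ≤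
    C * eLpNorm u (ENNReal.ofReal p) volume +
    ∑' j : ℕ, (∫⁻ t in Icc (1 : ℝ) 2, ∫⁻ x : EE d, ‖H83.LS.MM (fun ξ =>
      ((c t ξ * H83.LS.chi (‖ξ‖ / 2 ^ (j + 1)) : ℝ) : ℂ)) u x‖ₑ ^ p) ^ (1 / p)

/-- SUM: the sum over the frequencies -/
def T_SUM : Prop := ∀ (s : ℝ) (K : ℕ), 0 < s → s < K → ∃ C : ℝ≥0, ∀ δ : ℝ, 0 < δ → δ ≤ 1 →
  ∑' j : ℕ, ENNReal.ofReal (min (((2 : ℝ) ^ (j + 1) * δ) ^ s)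
    (((2 : ℝ) ^ (j + 1) * δ) ^ (s - K))) ≤ C

/-- PIE: one frequency, data carried by a set -/
def T_PIE : Prop := ∀ (d K : ℕ) (p : ℝ) (a : EE d → ℂ), 3 ≤ d → 2 < p → Sym a → ∃ C : ℝ≥0,
  ∀ (E : Set (EE d)) (S : ℝ≥0∞) (lam ε : ℝ) (u : 𝓢(EE d, ℂ)), IsClosed E →
  (∀ x ∈ E, ∫⁻ y in E, (‖x - y‖ₑ ^ 2)⁻¹ ≤ S) → 1 ≤ lam → (ε = 1 ∨ ε = -1) →
  (∀ x, x ∉ E → u x = 0) →
  ∫⁻ t in Icc (1 : ℝ) 2, ∫⁻ x : EE d, ‖HP a ε lam t u x‖ₑ ^ p ≤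
    C * ENNReal.ofReal (lam ^ (((d : ℝ) - 1) * (p - 2) / 2 - K * p)) * S ^ (min 1 (p - 2)) *
      ∫⁻ x, ‖iteratedFDeriv ℝ K u x‖ₑ ^ p

/-- the norm of the solution with data `(u₀, div G)`: `(∫_1^2 ‖u(t)‖_p^p dt)^(1/p)` -/
noncomputable def slN {d : ℕ} (p : ℝ) (u₀ : EE d → ℂ) (G : Fin d → EE d → ℂ) : ℝ≥0∞ :=
  (∫⁻ t in Icc (1 : ℝ) 2, eLpNorm (fun x => H83.LS.cosS u₀ t x +
    H83.LS.sinS (fun y => ∑ j, fderiv ℝ (G j) y (ei j)) t x) (ENNReal.ofReal p) volume ^ p) ^ (1 / p)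

/-- FIN: the theorem -/
def T_FIN : Prop := ∀ (d K : ℕ) (p a σ A M : ℝ), 3 ≤ d → 2 * (d : ℝ) / (d - 1) ≤ p → 0 ≤ A →
  0 ≤ M → σ ≤ 1 / p → σ < (d - a) * min 1 (p - 2) / p → ((d : ℝ) - 1) * (1 / 2 - 1 / p) < K →
  ∃ C : ℝ≥0, ∀ (δ : ℝ) (E : Set (EE d)) (u₀ : 𝓢(EE d, ℂ)) (G : Fin d → 𝓢(EE d, ℂ)),
    0 < δ → δ ≤ 1 → IsClosed E → volume E ≤ ENNReal.ofReal (A * δ ^ ((d : ℝ) - a)) →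
    (∀ x ∈ E, ∀ r : ℝ, δ ≤ r → r ≤ 1 →
      volume (E ∩ Metric.ball x r) ≤ ENNReal.ofReal (A * δ ^ ((d : ℝ) - a) * r ^ a)) →
    (∀ x, x ∉ E → u₀ x = 0 ∧ ∀ j, G j x = 0) →
    ENNReal.ofReal (δ ^ K) * eLpNorm (iteratedFDeriv ℝ K u₀) (ENNReal.ofReal p) volume ≤
      ENNReal.ofReal M * eLpNorm u₀ (ENNReal.ofReal p) volume →
    (∀ j, ENNReal.ofReal (δ ^ K) * eLpNorm (iteratedFDeriv ℝ K (G j)) (ENNReal.ofReal p) volume ≤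
      ENNReal.ofReal M * eLpNorm (G j) (ENNReal.ofReal p) volume) →
    slN p u₀ (fun j => G j) ≤
      (C : ℝ≥0∞) * ENNReal.ofReal (δ ^ (-(((d : ℝ) - 1) * (1 / 2 - 1 / p) - σ))) *
        (eLpNorm u₀ (ENNReal.ofReal p) volume + ∑ j, eLpNorm (G j) (ENNReal.ofReal p) volume)

end Pool.Agent.H94.C1
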