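import Pool.Agent.H73.LS.Core
import Pool.Agent.H94.C1.Targets

/-!
# Dyadic decomposition (row ASM of the board `c1_modules`)
-/

set_option autoImplicit false

namespace Pool.Agent.H94.C1

open MeasureTheory Set Filter FourierTransform Pool.Agent.H73.LS
open scoped ENNReal NNReal SchwartzMap
open H83.LS (MK MM eta0 chi)
open H82.KL (EE)

variable {d : ℕ}

/-- pointwise decomposition -/
lemma enorm_MI_le (c : EE d → ℝ) (hc : Measurable c) (hb : ∀ ξ, |c ξ| ≤ 1) (G : EE d → ℂ)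
    (hG : Integrable G) (x : EE d) :
    ‖MI c G x‖ₑ ≤ ‖MI (fun ξ : EE d => eta0 ‖ξ‖ * c ξ) G x‖ₑ +
      ∑' j : ℕ, ‖MI (fun ξ : EE d => c ξ * chi (‖ξ‖ / 2 ^ (j + 1))) G x‖ₑ := by
  have hbd : ∀ (J : ℕ) (ξ : EE d), |eta0 (‖ξ‖ / 2 ^ J) * c ξ| ≤ 1 := by
    intro J ξ
    rw [abs_mul]
    calc |eta0 (‖ξ‖ / 2 ^ J)| * |c ξ| ≤ 1 * 1 :=
          mul_le_mul (eta0_abs _) (hb _) (abs_nonneg _) zero_le_one
      _ = 1 := one_mul _
  have hme : ∀ J : ℕ, Measurable (fun ξ : EE d => eta0 (‖ξ‖ / 2 ^ J) * c ξ) := fun J =>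
    (continuous_eta0.comp (by fun_prop)).measurable.mul hc
  have hint : ∀ J : ℕ, Integrable (fun ξ : EE d => H83.LS.e (inner ℝ x ξ) *
      (((eta0 (‖ξ‖ / 2 ^ J) * c ξ : ℝ) : ℂ) * G ξ)) := fun J =>
    integrable_MI _ G x 1 (hme J) (hbd J) hG
  have hsum : ∀ J : ℕ, MI (fun ξ : EE d => eta0 ‖ξ‖ * c ξ) G x +
      ∑ j ∈ Finset.range J, MI (fun ξ : EE d => c ξ * chi (‖ξ‖ / 2 ^ (j + 1))) G x =
      MI (fun ξ : EE d => eta0 (‖ξ‖ / 2 ^ J) * c ξ) G x := by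
    intro J
    induction J with
    | zero => simp
    | succ J ih =>
      rw [Finset.sum_range_succ, ← add_assoc, ih]
      have h1 : MI (fun ξ : EE d => c ξ * chi (‖ξ‖ / 2 ^ (J + 1))) G x =
          MI (fun ξ : EE d => eta0 (‖ξ‖ / 2 ^ (J + 1)) * c ξ) G x -
            MI (fun ξ : EE d => eta0 (‖ξ‖ / 2 ^ J) * c ξ) G x := by
        unfold MI
        rw [← integral_sub (hint (J + 1)) (hint J)]
        refine integral_congr_ae (Eventually.of_forall fun ξ => ?_)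
        beta_reduce
        rw [chi_dyadic]
        push_cast
        ring
      rw [h1]
      ring
  have hlim : Tendsto (fun J : ℕ => MI (fun ξ : EE d => eta0 (‖ξ‖ / 2 ^ J) * c ξ) G x)
      atTop (nhds (MI c G x)) := by
    unfold MI
    refine tendsto_integral_of_dominated_convergence (fun ξ => ‖G ξ‖)
      (fun J => (hint J).1) hG.norm (fun J => Eventually.of_forall fun ξ => ?_)
      (Eventually.of_forall fun ξ => ?_)
    · rw [norm_mul, H83.LS.norm_e, one_mul, norm_mul, Complex.norm_real, Real.norm_eq_abs]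
      calc |eta0 (‖ξ‖ / 2 ^ J) * c ξ| * ‖G ξ‖ ≤ 1 * ‖G ξ‖ :=
            mul_le_mul_of_nonneg_right (hbd J ξ) (norm_nonneg _)
        _ = ‖G ξ‖ := one_mul _
    · refine tendsto_const_nhds.congr' ?_
      obtain ⟨J₀, hJ₀⟩ := pow_unbounded_of_one_lt ‖ξ‖ (one_lt_two)
      filter_upwards [eventually_ge_atTop J₀] with J hJ
      have h2 : ‖ξ‖ / 2 ^ J ≤ 1 := by
        rw [div_le_one (by positivity)]
        exact hJ₀.le.trans (pow_le_pow_right₀ one_le_two hJ)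
      rw [eta0_one h2, one_mul]
  refine le_of_tendsto (hlim.enorm) (Eventually.of_forall fun J => ?_)
  rw [← hsum J]
  refine (enorm_add_le _ _).trans (add_le_add le_rfl ?_)
  refine (enorm_sum_le _ _).trans ?_
  exact ENNReal.sum_le_tsum _

/-- the low frequencies -/
lemma low_MI (hPLE : H83.LS.T_PLE) (hYG : H83.LS.T_YG) (p : ℝ) (hp : 1 ≤ p) (C₁ : ℝ≥0)
    (c : EE d → ℝ) (hc : Measurable c) (hb : ∀ ξ, |c ξ| ≤ 1)
    (hK : ∫⁻ x : EE d, ‖MK (fun ξ : EE d => ((eta0 ‖ξ‖ * c ξ : ℝ) : ℂ)) x‖ₑ ≤ C₁)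
    (u : 𝓢(EE d, ℂ)) :
    ∫⁻ x, ‖MI (fun ξ : EE d => eta0 ‖ξ‖ * c ξ) (𝓕 (u : EE d → ℂ)) x‖ₑ ^ p ≤
      (C₁ : ℝ≥0∞) ^ p * ∫⁻ x, ‖u x‖ₑ ^ p := by
  let m : EE d → ℂ := fun ξ => ((eta0 ‖ξ‖ * c ξ : ℝ) : ℂ)
  have hmm : Measurable m := by
    refine Complex.measurable_ofReal.comp (Measurable.mul ?_ hc)
    exact (continuous_eta0.comp continuous_norm).measurable
  have hmD : ∀ ξ, ‖m ξ‖ ≤ 1 := by
    intro ξ
    change ‖((eta0 ‖ξ‖ * c ξ : ℝ) : ℂ)‖ ≤ 1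
    rw [Complex.norm_real, Real.norm_eq_abs, abs_mul]
    calc |eta0 ‖ξ‖| * |c ξ| ≤ 1 * 1 :=
          mul_le_mul (eta0_abs _) (hb _) (abs_nonneg _) zero_le_one
      _ = 1 := one_mul _
  have hmi : Integrable m := by
    have h1 : IntegrableOn m (Metric.closedBall 0 2) :=
      Measure.integrableOn_of_bounded (measure_closedBall_lt_top.ne) hmm.aestronglyMeasurable
        (M := 1) (Eventually.of_forall fun ξ => hmD ξ)
    refine h1.integrable_of_forall_notMem_eq_zero fun ξ hξ => ?_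
    have h2 : 2 < ‖ξ‖ := by simpa using hξ
    change ((eta0 ‖ξ‖ * c ξ : ℝ) : ℂ) = 0
    rw [eta0_zero h2.le, zero_mul, Complex.ofReal_zero]
  have h1 := young_MM hPLE hYG p hp m u 1 one_pos hmm hmD hmi u.integrable
    ⟨_, fun x => (SchwartzMap.norm_le_seminorm ℝ u x)⟩ u.continuous.measurable
  refine h1.trans (mul_le_mul' (ENNReal.rpow_le_rpow hK (by linarith)) le_rfl)

theorem pf_ASM (hPLE : H83.LS.T_PLE) (hYG : H83.LS.T_YG) : T_ASM := by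
  intro d p c u C hp hc hb hK
  have hp0 : 0 < p := lt_of_lt_of_le one_pos hp
  let G : EE d → ℂ := 𝓕 (u : EE d → ℂ)
  have hGm : Measurable G := measurable_F u
  have hGi : Integrable G := integrable_F u
  set ν : Measure (ℝ × EE d) := ((volume : Measure ℝ).restrict (Icc 1 2)).prod volume with hν
  have mT : Measurable (fun q : ℝ × EE d => MI (c q.1) G q.2) := measurable_MI c hc G hGm
  have mL : Measurable (fun q : ℝ × EE d => MI (fun ξ => eta0 ‖ξ‖ * c q.1 ξ) G q.2) := by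
    refine measurable_MI (fun (t : ℝ) (ξ : EE d) => eta0 ‖ξ‖ * c t ξ) (Measurable.mul ?_ hc)
      G hGm
    exact (continuous_eta0.comp (by fun_prop)).measurable
  have mH : ∀ j : ℕ, Measurable (fun q : ℝ × EE d =>
      MI (fun ξ => c q.1 ξ * chi (‖ξ‖ / 2 ^ (j + 1))) G q.2) := by
    intro j
    refine measurable_MI (fun (t : ℝ) (ξ : EE d) => c t ξ * chi (‖ξ‖ / 2 ^ (j + 1)))
      (Measurable.mul hc ?_) G hGm
    exact (continuous_chi.comp (by fun_prop)).measurable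
  have e0 : ∀ (t : ℝ) (x : EE d), 𝓕⁻ (fun ξ : EE d => ((c t ξ : ℝ) : ℂ) * 𝓕 (u : EE d → ℂ) ξ) x =
      MI (c t) G x := fun t x => fourierInv_MI _ _ _
  simp_rw [e0]
  have e1 : ∫⁻ t in Icc (1 : ℝ) 2, ∫⁻ x : EE d, ‖MI (c t) G x‖ₑ ^ p =
      ∫⁻ q : ℝ × EE d, ‖MI (c q.1) G q.2‖ₑ ^ p ∂ν := by
    rw [hν, lintegral_prod _ ((mT.enorm.pow_const p).aemeasurable)]
  have e2 : ∀ j : ℕ, ∫⁻ t in Icc (1 : ℝ) 2, ∫⁻ x : EE d, ‖MM (fun ξ =>
      ((c t ξ * chi (‖ξ‖ / 2 ^ (j + 1)) : ℝ) : ℂ)) u x‖ₑ ^ p =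
      ∫⁻ q : ℝ × EE d, ‖MI (fun ξ => c q.1 ξ * chi (‖ξ‖ / 2 ^ (j + 1))) G q.2‖ₑ ^ p ∂ν := by
    intro j
    rw [hν, lintegral_prod _ (((mH j).enorm.pow_const p).aemeasurable)]
    rfl
  rw [e1]
  simp_rw [e2]
  -- pointwise bound and Minkowski
  have h1 : (∫⁻ q : ℝ × EE d, ‖MI (c q.1) G q.2‖ₑ ^ p ∂ν) ^ (1 / p) ≤
      (∫⁻ q : ℝ × EE d, ‖MI (fun ξ => eta0 ‖ξ‖ * c q.1 ξ) G q.2‖ₑ ^ p ∂ν) ^ (1 / p) +
      (∫⁻ q : ℝ × EE d, (∑' j : ℕ, ‖MI (fun ξ : EE d =>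
        c q.1 ξ * chi (‖ξ‖ / 2 ^ (j + 1))) G q.2‖ₑ) ^ p ∂ν) ^ (1 / p) := by
    have h2 := ENNReal.lintegral_Lp_add_le (μ := ν) (p := p)
      (f := fun q : ℝ × EE d => ‖MI (fun ξ => eta0 ‖ξ‖ * c q.1 ξ) G q.2‖ₑ)
      (g := fun q : ℝ × EE d => ∑' j : ℕ, ‖MI (fun ξ : EE d =>
        c q.1 ξ * chi (‖ξ‖ / 2 ^ (j + 1))) G q.2‖ₑ)
      mL.enorm.aemeasurable (Measurable.tsum fun j => (mH j).enorm).aemeasurable hp
    refine le_trans (ENNReal.rpow_le_rpow (lintegral_mono fun q => ?_) (by positivity)) h2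
    exact ENNReal.rpow_le_rpow (enorm_MI_le (c q.1) (hc.comp measurable_prodMk_left) (hb q.1) G
      hGi q.2) hp0.le
  have h3 := mink_tsum (μ := ν) p hp (fun (j : ℕ) (q : ℝ × EE d) => ‖MI (fun ξ : EE d =>
    c q.1 ξ * chi (‖ξ‖ / 2 ^ (j + 1))) G q.2‖ₑ) (fun j => (mH j).enorm)
  -- low part
  have h4 : (∫⁻ q : ℝ × EE d, ‖MI (fun ξ => eta0 ‖ξ‖ * c q.1 ξ) G q.2‖ₑ ^ p ∂ν) ^ (1 / p) ≤
      C * eLpNorm u (ENNReal.ofReal p) volume := by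
    have hN : eLpNorm u (ENNReal.ofReal p) volume = (∫⁻ x, ‖u x‖ₑ ^ p) ^ (1 / p) := by
      rw [eLpNorm_eq_lintegral_rpow_enorm_toReal (by simpa using hp0) ENNReal.ofReal_ne_top,
        ENNReal.toReal_ofReal hp0.le]
    have h5 : ∫⁻ q : ℝ × EE d, ‖MI (fun ξ => eta0 ‖ξ‖ * c q.1 ξ) G q.2‖ₑ ^ p ∂ν ≤
        (C : ℝ≥0∞) ^ p * ∫⁻ x, ‖u x‖ₑ ^ p := by
      rw [hν, lintegral_prod _ ((mL.enorm.pow_const p).aemeasurable)]
      calc ∫⁻ t in Icc (1 : ℝ) 2, ∫⁻ x : EE d, ‖MI (fun ξ => eta0 ‖ξ‖ * c t ξ) G x‖ₑ ^ p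
          ≤ ∫⁻ t in Icc (1 : ℝ) 2, (C : ℝ≥0∞) ^ p * ∫⁻ x, ‖u x‖ₑ ^ p := by
            refine lintegral_mono_ae ?_
            filter_upwards [ae_restrict_mem measurableSet_Icc] with t ht
            exact low_MI hPLE hYG p hp C (c t) (hc.comp measurable_prodMk_left) (hb t) (hK t ht) u
        _ = (C : ℝ≥0∞) ^ p * ∫⁻ x, ‖u x‖ₑ ^ p := by
            rw [lintegral_const, Measure.restrict_apply MeasurableSet.univ, univ_inter,
              Real.volume_Icc]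
            norm_num
    refine (ENNReal.rpow_le_rpow h5 (by positivity)).trans (le_of_eq ?_)
    rw [ENNReal.mul_rpow_of_nonneg _ _ (by positivity), ← ENNReal.rpow_mul,
      mul_one_div_cancel hp0.ne', ENNReal.rpow_one, hN]
  exact h1.trans (add_le_add h4 h3)

end Pool.Agent.H94.C1
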