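import Pool.Agent.H94.C1.FIN2

/-!
# The theorem (row FIN of the board `c1_modules`)
-/

set_option autoImplicit false

namespace Pool.Agent.H94.C1

open MeasureTheory Set Filter FourierTransform
open scoped ENNReal NNReal SchwartzMap Topology
open Pool.Agent.H73.LS (measurable_F integrable_F MI fourierInv_MI measurable_MI integrable_MI)
open H83.LS (MK MM eta0 chi)
open H82.KL

variable {d : ℕ}

lemma mink_finset {α ι : Type*} [MeasurableSpace α] {μ : Measure α} (p : ℝ) (hp : 1 ≤ p)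
    (s : Finset ι) (f : ι → α → ℝ≥0∞) (hf : ∀ i, Measurable (f i)) :
    (∫⁻ a, (∑ i ∈ s, f i a) ^ p ∂μ) ^ (1 / p) ≤ ∑ i ∈ s, (∫⁻ a, f i a ^ p ∂μ) ^ (1 / p) := by
  classical
  have hp0 : 0 < p := lt_of_lt_of_le one_pos hp
  induction s using Finset.induction_on with
  | empty => simp [ENNReal.zero_rpow_of_pos hp0, hp0]
  | insert i s hi ih =>
    have h := ENNReal.lintegral_Lp_add_le (μ := μ) (p := p) (f := f i)
      (g := fun a => ∑ i ∈ s, f i a) (hf i).aemeasurable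
      (Finset.measurable_sum _ fun j _ => hf j).aemeasurable hp
    rw [Finset.sum_insert hi]
    simp_rw [Finset.sum_insert hi]
    exact h.trans (add_le_add le_rfl ih)

/-- the norm over `[1,2] × ℝ^d` of a multiplier operator -/
noncomputable def nm (p : ℝ) (c : ℝ → EE d → ℝ) (u : EE d → ℂ) : ℝ≥0∞ :=
  (∫⁻ t in Icc (1 : ℝ) 2, ∫⁻ x : EE d,
    ‖𝓕⁻ (fun ξ : EE d => ((c t ξ : ℝ) : ℂ) * 𝓕 u ξ) x‖ₑ ^ p) ^ (1 / p)

lemma one_mult (hA : T_ASM) (p s' δ : ℝ) (hp : 1 ≤ p) (c : ℝ → EE d → ℝ) (u : 𝓢(EE d, ℂ))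
    (C C' : ℝ≥0) (B : ℝ≥0∞) (hB : eLpNorm u (ENNReal.ofReal p) volume ≤ B) (hs : 0 ≤ s') (hδ : 0 < δ) (hδ1 : δ ≤ 1)
    (hc : Measurable (fun q : ℝ × EE d => c q.1 q.2)) (hb : ∀ t ξ, |c t ξ| ≤ 1)
    (hK : ∀ t ∈ Icc (1 : ℝ) 2, ∫⁻ x : EE d,
      ‖MK (fun ξ : EE d => ((eta0 ‖ξ‖ * c t ξ : ℝ) : ℂ)) x‖ₑ ≤ C)
    (hH : ∑' j : ℕ, (∫⁻ t in Icc (1 : ℝ) 2, ∫⁻ x : EE d, ‖MM (fun ξ =>
      ((c t ξ * chi (‖ξ‖ / 2 ^ (j + 1)) : ℝ) : ℂ)) u x‖ₑ ^ p) ^ (1 / p) ≤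
      C' * ENNReal.ofReal (δ ^ (-s')) * B) :
    nm p c u ≤ (C + C' : ℝ≥0) * ENNReal.ofReal (δ ^ (-s')) * B := by
  have h1 := hA d p c u C hp hc hb hK
  refine h1.trans ((add_le_add le_rfl hH).trans ?_)
  have h2 : (1 : ℝ≥0∞) ≤ ENNReal.ofReal (δ ^ (-s')) := by
    rw [← ENNReal.ofReal_one]
    refine ENNReal.ofReal_le_ofReal ?_
    exact Real.one_le_rpow_of_pos_of_le_one_of_nonpos hδ hδ1 (by linarith)
  calc (C : ℝ≥0∞) * eLpNorm u (ENNReal.ofReal p) volume +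
        C' * ENNReal.ofReal (δ ^ (-s')) * B
      = C * 1 * eLpNorm u (ENNReal.ofReal p) volume +
        C' * ENNReal.ofReal (δ ^ (-s')) * B := by rw [mul_one]
    _ ≤ C * ENNReal.ofReal (δ ^ (-s')) * B +
        C' * ENNReal.ofReal (δ ^ (-s')) * B := by gcongr
    _ = _ := by
        push_cast
        ring

lemma sinS_div (G : Fin d → 𝓢(EE d, ℂ)) (t : ℝ) (x : EE d) :
    H83.LS.sinS (fun y => ∑ j, fderiv ℝ (G j) y (ei j)) t x =
      ∑ j, Complex.I * MI (st j t) (𝓕 (G j : EE d → ℂ)) x := by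
  have hst : ∀ j : Fin d, Measurable (fun ξ : EE d => st j t ξ) := by
    intro j
    have h : Measurable ((fun q : ℝ × EE d => st j q.1 q.2) ∘ (fun ξ : EE d => (t, ξ))) :=
      (measurable_st j).comp measurable_prodMk_left
    exact h
  have h1 : (fun ξ : EE d => ((Real.sin (2 * Real.pi * t * ‖ξ‖) / (2 * Real.pi * ‖ξ‖) : ℝ) : ℂ) *
      𝓕 (fun y => ∑ j, fderiv ℝ (G j) y (ei j)) ξ) =
      fun ξ : EE d => ∑ j, Complex.I * (((st j t ξ : ℝ) : ℂ) * 𝓕 (G j : EE d → ℂ) ξ) := by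
    funext ξ
    rw [fourier_div, Finset.mul_sum]
    refine Finset.sum_congr rfl fun j _ => ?_
    unfold st
    by_cases h : ξ = 0
    · rw [h]
      simp
    · have h2 : ((‖ξ‖ : ℝ) : ℂ) ≠ 0 := by
        exact_mod_cast norm_ne_zero_iff.mpr h
      have h3 : (Real.pi : ℂ) ≠ 0 := by exact_mod_cast Real.pi_ne_zero
      push_cast
      field_simp
  unfold H83.LS.sinS
  rw [h1, Real.fourierInv_eq']
  have h4 : ∀ j : Fin d, Complex.I * MI (st j t) (𝓕 (G j : EE d → ℂ)) x =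
      ∫ ξ : EE d, Complex.I * (H83.LS.e (inner ℝ x ξ) * (((st j t ξ : ℝ) : ℂ) *
        𝓕 (G j : EE d → ℂ) ξ)) := by
    intro j
    unfold Pool.Agent.H73.LS.MI
    rw [integral_const_mul]
  simp_rw [h4]
  rw [← integral_finsetSum]
  · refine integral_congr_ae (Eventually.of_forall fun ξ => ?_)
    beta_reduce
    rw [Finset.smul_sum]
    refine Finset.sum_congr rfl fun j _ => ?_
    unfold H83.LS.e
    rw [real_inner_comm x ξ, smul_eq_mul]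
    ring
  · intro j _
    exact (integrable_MI (st j t) (𝓕 (G j : EE d → ℂ)) x 1 (hst j) (st_le j t)
      (integrable_F (G j))).const_mul _

lemma slN_le (p : ℝ) (hp : 1 ≤ p) (u₀ : 𝓢(EE d, ℂ)) (G : Fin d → 𝓢(EE d, ℂ)) :
    slN p u₀ (fun j => G j) ≤ nm p ct u₀ + ∑ j, nm p (st j) (G j) := by
  have hp0 : 0 < p := lt_of_lt_of_le one_pos hp
  set ν : Measure (ℝ × EE d) := ((volume : Measure ℝ).restrict (Icc 1 2)).prod volume with hν
  have m0 : Measurable (fun q : ℝ × EE d => MI (ct q.1) (𝓕 (u₀ : EE d → ℂ)) q.2) :=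
    measurable_MI ct measurable_ct _ (measurable_F u₀)
  have mj : ∀ j, Measurable (fun q : ℝ × EE d => MI (st j q.1) (𝓕 (G j : EE d → ℂ)) q.2) :=
    fun j => measurable_MI (st j) (measurable_st j) _ (measurable_F (G j))
  have e0 : nm p ct u₀ = (∫⁻ q : ℝ × EE d, ‖MI (ct q.1) (𝓕 (u₀ : EE d → ℂ)) q.2‖ₑ ^ p ∂ν) ^
      (1 / p) := by
    rw [hν, lintegral_prod _ ((m0.enorm.pow_const p).aemeasurable)]
    unfold nm
    simp_rw [fourierInv_MI]
  have ej : ∀ j, nm p (st j) (G j) = (∫⁻ q : ℝ × EE d,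
      ‖MI (st j q.1) (𝓕 (G j : EE d → ℂ)) q.2‖ₑ ^ p ∂ν) ^ (1 / p) := by
    intro j
    rw [hν, lintegral_prod _ (((mj j).enorm.pow_const p).aemeasurable)]
    unfold nm
    simp_rw [fourierInv_MI]
  have hpt : ∀ (t : ℝ) (x : EE d), ‖H83.LS.cosS u₀ t x +
      H83.LS.sinS (fun y => ∑ j, fderiv ℝ (G j) y (ei j)) t x‖ₑ ≤
      ‖MI (ct t) (𝓕 (u₀ : EE d → ℂ)) x‖ₑ + ∑ j, ‖MI (st j t) (𝓕 (G j : EE d → ℂ)) x‖ₑ := by
    intro t x
    refine (enorm_add_le _ _).trans (add_le_add (le_of_eq ?_) ?_)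
    · congr 1
      exact fourierInv_MI (ct t) _ x
    · rw [sinS_div]
      refine (enorm_sum_le _ _).trans (Finset.sum_le_sum fun j _ => ?_)
      rw [enorm_mul]
      have : ‖Complex.I‖ₑ = 1 := by
        rw [← ofReal_norm, Complex.norm_I, ENNReal.ofReal_one]
      rw [this, one_mul]
  have m3 : Measurable (fun q : ℝ × EE d => (‖MI (ct q.1) (𝓕 (u₀ : EE d → ℂ)) q.2‖ₑ +
      ∑ j, ‖MI (st j q.1) (𝓕 (G j : EE d → ℂ)) q.2‖ₑ) ^ p) :=
    (m0.enorm.add (Finset.measurable_sum _ fun j _ => (mj j).enorm)).pow_const p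
  have h1 : slN p u₀ (fun j => G j) ≤ (∫⁻ q : ℝ × EE d, (‖MI (ct q.1) (𝓕 (u₀ : EE d → ℂ)) q.2‖ₑ +
      ∑ j, ‖MI (st j q.1) (𝓕 (G j : EE d → ℂ)) q.2‖ₑ) ^ p ∂ν) ^ (1 / p) := by
    unfold slN
    refine ENNReal.rpow_le_rpow ?_ (by positivity)
    rw [hν, lintegral_prod _ m3.aemeasurable]
    refine lintegral_mono fun t => ?_
    rw [← lint_eq p hp0]
    refine lintegral_mono fun x => ?_
    exact ENNReal.rpow_le_rpow (hpt t x) hp0.le
  refine h1.trans ?_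
  have h2 := ENNReal.lintegral_Lp_add_le (μ := ν) (p := p) m0.enorm.aemeasurable
    (g := fun q : ℝ × EE d => ∑ j, ‖MI (st j q.1) (𝓕 (G j : EE d → ℂ)) q.2‖ₑ)
    (Finset.measurable_sum _ fun j _ => (mj j).enorm).aemeasurable hp
  refine h2.trans ?_
  rw [e0]
  simp_rw [ej]
  exact add_le_add le_rfl (mink_finset p hp _ _ fun j => (mj j).enorm)

/-- the theorem -/
def T_FIN2 : Prop := ∀ (d K : ℕ) (p a σ A M : ℝ), 3 ≤ d → 2 * (d : ℝ) / (d - 1) ≤ p → 0 ≤ A →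
  0 ≤ M → σ ≤ 1 / p → σ < (d - a) * min 1 (p - 2) / p → ((d : ℝ) - 1) * (1 / 2 - 1 / p) < K →
  ∃ C : ℝ≥0, ∀ (δ : ℝ) (E : Set (EE d)) (u₀ : 𝓢(EE d, ℂ)) (G : Fin d → 𝓢(EE d, ℂ)),
    0 < δ → δ ≤ 1 → IsClosed E → volume E ≤ ENNReal.ofReal (A * δ ^ ((d : ℝ) - a)) →
    (∀ x ∈ E, ∀ r : ℝ, δ ≤ r → r ≤ 1 →
      volume (E ∩ Metric.ball x r) ≤ ENNReal.ofReal (A * δ ^ ((d : ℝ) - a) * r ^ a)) →
    (∀ x, x ∉ E → u₀ x = 0 ∧ ∀ j, G j x = 0) →
    ENNReal.ofReal (δ ^ K) * (eLpNorm (iteratedFDeriv ℝ K u₀) (ENNReal.ofReal p) volume +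
        ∑ j, eLpNorm (iteratedFDeriv ℝ K (G j)) (ENNReal.ofReal p) volume) ≤
      ENNReal.ofReal M * (eLpNorm u₀ (ENNReal.ofReal p) volume +
        ∑ j, eLpNorm (G j) (ENNReal.ofReal p) volume) →
    slN p u₀ (fun j => G j) ≤
      (C : ℝ≥0∞) * ENNReal.ofReal (δ ^ (-(((d : ℝ) - 1) * (1 / 2 - 1 / p) - σ))) *
        (eLpNorm u₀ (ENNReal.ofReal p) volume + ∑ j, eLpNorm (G j) (ENNReal.ofReal p) volume)

theorem pf_FIN2 (hA : T_ASM) (hP : T_PIE) (hS : T_SCH) (hSum : T_SUM) (hL : H83.LS.T_LOWF)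
    (hV : T_LOWV) : T_FIN2 := by
  intro d K p a σ A M hd hp hA0 hM hσ hσa hK
  have hpar : Par d K p a σ A M := ⟨hd, hp, hA0, hM, hσ, hσa, hK⟩
  obtain ⟨-, hd1, hp2⟩ := hpar.p2
  have hp0 : 0 < p := by linarith
  obtain ⟨C0, hC0⟩ := high hP hS hSum K p a σ A M hpar ct _ sym_ct half_ct
  have hj := fun j : Fin d => high hP hS hSum K p a σ A M hpar (st j) _ (sym_st j) (half_st j)
  choose CJ hCJ using hj
  obtain ⟨CL, hCL⟩ := hL d 0 (by omega)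
  obtain ⟨CV, hCV⟩ := hV d (by omega)
  have hs' : 0 ≤ ((d : ℝ) - 1) * (1 / 2 - 1 / p) - σ := by
    have h1 : 1 / p ≤ ((d : ℝ) - 1) * (1 / 2 - 1 / p) := by
      rw [div_le_iff₀ hd1] at hp
      have h2 : ((d : ℝ) - 1) * (1 / 2 - 1 / p) - 1 / p = (p * (d - 1) - 2 * d) / (2 * p) := by
        field_simp
        ring
      have h3 : 0 ≤ (p * ((d : ℝ) - 1) - 2 * d) / (2 * p) := by
        refine div_nonneg (by linarith) (by positivity)
      linarith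
    linarith
  refine ⟨CL + C0 + ∑ j, (CV + CJ j), fun δ E u₀ G hδ hδ1 hEc hE1 hE2 hu hf => ?_⟩
  have hE : Thin a A δ E := ⟨hδ, hδ1, hEc, hE1, hE2⟩
  refine (slN_le p (by linarith) u₀ G).trans ?_
  set B := eLpNorm u₀ (ENNReal.ofReal p) volume +
    ∑ j, eLpNorm (G j) (ENNReal.ofReal p) volume with hB
  have hB0 : eLpNorm u₀ (ENNReal.ofReal p) volume ≤ B := le_self_add
  have hBj : ∀ j, eLpNorm (G j) (ENNReal.ofReal p) volume ≤ B := fun j =>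
    (Finset.single_le_sum (f := fun j => eLpNorm (G j) (ENNReal.ofReal p) volume)
      (fun i _ => zero_le) (Finset.mem_univ j)).trans le_add_self
  have hf0 : ENNReal.ofReal (δ ^ K) * eLpNorm (iteratedFDeriv ℝ K u₀) (ENNReal.ofReal p) volume ≤
      ENNReal.ofReal M * B := le_trans (mul_le_mul' le_rfl le_self_add) hf
  have hfj : ∀ j, ENNReal.ofReal (δ ^ K) *
      eLpNorm (iteratedFDeriv ℝ K (G j)) (ENNReal.ofReal p) volume ≤
      ENNReal.ofReal M * B := fun j => le_trans (mul_le_mul' le_rfl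
        ((Finset.single_le_sum (f := fun j => eLpNorm (iteratedFDeriv ℝ K (G j))
          (ENNReal.ofReal p) volume) (fun i _ => zero_le) (Finset.mem_univ j)).trans
          le_add_self)) hf
  have b0 := one_mult hA p _ δ (by linarith) ct u₀ CL C0 B hB0 hs' hδ hδ1 measurable_ct ct_le
    (fun t ht => by
      refine le_trans (le_of_eq ?_) (hCL t ⟨by linarith [ht.1], ht.2⟩).1
      congr 1
      funext x
      congr 3
      funext ξ
      unfold ct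
      norm_num)
    (hC0 δ E u₀ B hE (fun x hx => (hu x hx).1) hB0 hf0)
  have bj := fun j : Fin d => one_mult hA p _ δ (by linarith) (st j) (G j) CV (CJ j) B (hBj j)
    hs' hδ hδ1 (measurable_st j) (st_le j)
    (fun t ht => hCV t ⟨by linarith [ht.1], ht.2⟩ j)
    (hCJ j δ E (G j) B hE (fun x hx => (hu x hx).2 j) (hBj j) (hfj j))
  set D := ENNReal.ofReal (δ ^ (-(((d : ℝ) - 1) * (1 / 2 - 1 / p) - σ))) with hD
  calc nm p ct u₀ + ∑ j, nm p (st j) (G j)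
      ≤ (CL + C0 : ℝ≥0) * D * B + ∑ j, (CV + CJ j : ℝ≥0) * D * B :=
        add_le_add b0 (Finset.sum_le_sum fun j _ => bj j)
    _ = _ := by
        rw [← Finset.sum_mul, ← Finset.sum_mul]
        push_cast
        ring

end Pool.Agent.H94.C1
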