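import Pool.Agent.H94.LS.LOWF
import Pool.Agent.H94.C1.Targets

/-!
# Low frequencies of `sin(t|D|) ∂_j/|D|` (row LOWV of the board `c1_modules`)
-/

set_option autoImplicit false

namespace Pool.Agent.H94.C1

open MeasureTheory Set Filter Topology Pool.Agent.H82.KL
open scoped ENNReal NNReal ContDiff

theorem pf_LOWV (h : H83.LS.T_KBV) : T_LOWV := by
  intro d hd
  obtain ⟨g, hg, hgs⟩ := Pool.Agent.H94.LS.sinc_sq
  have hsq : ContDiff ℝ (⊤ : ℕ∞) (fun q : (Fin 1 → ℝ) × H83.LS.EE d => ‖q.2‖ ^ 2) := by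
    exact (contDiff_norm_sq ℝ).comp contDiff_snd
  have ht : ContDiff ℝ (⊤ : ℕ∞) (fun q : (Fin 1 → ℝ) × H83.LS.EE d => q.1 0) := by
    exact (contDiff_apply ℝ ℝ (0 : Fin 1)).comp contDiff_fst
  have h1 : ContDiff ℝ (⊤ : ℕ∞) (fun q : (Fin 1 → ℝ) × H83.LS.EE d => H83.LS.eta0 ‖q.2‖) :=
    (Pool.Agent.H94.LS.contDiff_eta0 d).comp contDiff_snd
  have h3 : ContDiff ℝ (⊤ : ℕ∞) (fun q : (Fin 1 → ℝ) × H83.LS.EE d =>
      (2 * Real.pi * q.1 0) ^ 2 * ‖q.2‖ ^ 2) := by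
    exact ((contDiff_const.mul ht).pow 2).mul hsq
  have hx : ∀ j : Fin d, ContDiff ℝ (⊤ : ℕ∞) (fun q : (Fin 1 → ℝ) × H83.LS.EE d => q.2 j) := by
    intro j
    have : ContDiff ℝ (⊤ : ℕ∞) (fun y : H83.LS.EE d => y j) := by fun_prop
    exact this.comp contDiff_snd
  have heta : ∀ s : ℝ, 2 < s → H83.LS.eta0 s = 0 := by
    intro s hs
    unfold H83.LS.eta0
    exact Real.smoothTransition.zero_of_nonpos (by linarith)
  have key : ∀ j : Fin d, ∃ C : ℝ≥0, ∀ t ∈ Icc (0 : ℝ) 2,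
      ∫⁻ x : EE d, ‖H83.LS.MK (fun ξ : EE d => ((H83.LS.eta0 ‖ξ‖ *
        (Real.sin (2 * Real.pi * t * ‖ξ‖) * (ξ j / ‖ξ‖)) : ℝ) : ℂ)) x‖ₑ ≤ C := by
    intro j
    obtain ⟨C, hC⟩ := Pool.Agent.H94.LS.key h d (fun q => ((H83.LS.eta0 ‖q.2‖ *
      ((2 * Real.pi * q.1 0) * g ((2 * Real.pi * q.1 0) ^ 2 * ‖q.2‖ ^ 2) * q.2 j) : ℝ) : ℂ))
      (Complex.ofRealCLM.contDiff.comp (h1.mul (((contDiff_const.mul ht).mul (hg.comp h3)).mul
        (hx j)))) 2 (fun q hq => by rw [heta _ hq]; simp)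
    refine ⟨C, fun t htI => ?_⟩
    refine le_trans ?_ (hC t htI)
    refine lintegral_mono fun x => le_of_eq ?_
    congr 1
    unfold H83.LS.MK
    have : Nonempty (Fin d) := ⟨⟨0, by omega⟩⟩
    have : Nontrivial (EE d) := inferInstance
    refine integral_congr_ae ?_
    have hne : ∀ᵐ ξ : EE d, ξ ≠ 0 := by
      rw [ae_iff]
      simp
    filter_upwards [hne] with ξ hξ
    have hn : 0 < ‖ξ‖ := norm_pos_iff.mpr hξ
    have h5 : Real.sin (2 * Real.pi * t * ‖ξ‖) * (ξ j / ‖ξ‖) =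
        (2 * Real.pi * t) * g ((2 * Real.pi * t) ^ 2 * ‖ξ‖ ^ 2) * ξ j := by
      rw [← hgs, mul_pow (2 * Real.pi * t)]
      field_simp
    rw [h5]
  choose C hC using key
  refine ⟨∑ j, C j, fun t ht j => (hC j t ht).trans ?_⟩
  exact_mod_cast Finset.single_le_sum (f := C) (fun i _ => zero_le) (Finset.mem_univ j)

end Pool.Agent.H94.C1
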