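import Pool.Agent.H3.KL.PKF
import Pool.Agent.H22.KL.PKZ
import Pool.Agent.H22.KL.PKN
import Pool.Agent.H22.KL.K1
import Pool.Agent.H22.KL.GRAM
import Pool.Agent.H19.LS.YG
import Pool.Agent.H19.LS.PLE
import Pool.Agent.H58.LS.KBV
import Pool.Agent.H18.C1.APX
import Pool.Agent.H94.C1.ASM
import Pool.Agent.H18.C1.DEC
import Pool.Agent.H18.C1.DER
import Pool.Agent.H19.C1.DIF
import Pool.Agent.H18.C1.DIV
import Pool.Agent.H94.C1.FIN
import Pool.Agent.H19.C1.FLA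
import Pool.Agent.H1.C1.FLB
import Pool.Agent.H79.C1.FLX
import Pool.Agent.H90.C1.HOL
import Pool.Agent.H3.C1.HRD
import Pool.Agent.H34.C1.HWA
import Pool.Agent.H54.C1.HW
import Pool.Agent.H54.C1.IDN
import Pool.Agent.H19.C1.INT
import Pool.Agent.H54.C1.JEN
import Pool.Agent.H27.C1.KIA
import Pool.Agent.H34.C1.KIB
import Pool.Agent.H22.C1.KIS
import Pool.Agent.H94.C1.LOWV
import Pool.Agent.H1.C1.PLU
import Pool.Agent.H22.C1.PT
import Pool.Agent.H90.C1.RES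
import Pool.Agent.H22.C1.SCL
import Pool.Agent.H19.C1.SCH
import Pool.Agent.H19.C1.SUM
import Pool.Agent.H42.C1.SYM
import Pool.Agent.H27.C1.TW
import Pool.Agent.H27.C1.TWG
import Pool.Agent.H19.C1.WF
import Pool.Agent.H3.C1.WL2

/-!
# The modules of the board `c1_modules` put together
-/

set_option autoImplicit false

namespace Pool.Agent.H94.C1.Chain

open Pool.Agent.H94.C1

theorem pkf : H82.KL.T_PKF := Pool.Agent.H3.KL.pkf_main
theorem pkz : H82.KL.T_PKZ := Pool.Agent.H22.KL.pkz_main pkf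
theorem pkn : H82.KL.T_PKN := Pool.Agent.H22.KL.pkn_main pkz
theorem k1 : H82.KL.T_K1 := Pool.Agent.H22.KL.k1_main pkn
theorem gram : H82.KL.T_GRAM := Pool.Agent.H22.KL.gram_main
theorem yg : H83.LS.T_YG := Pool.Agent.H19.LS.YG_proof
theorem ple : H83.LS.T_PLE := Pool.Agent.H19.LS.PLE_proof
theorem kbv : H83.LS.T_KBV := Pool.Agent.H58.LS.kbv
theorem lowf : H83.LS.T_LOWF := Pool.Agent.H94.LS.lowf kbv

theorem sym : T_SYM := Pool.Agent.H42.C1.pf_SYM
theorem dif : T_DIF := Pool.Agent.H19.C1.pf_DIF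
theorem dec : T_DEC := Pool.Agent.H18.C1.pf_DEC k1
theorem plu : T_PLU := Pool.Agent.H1.C1.pf_PLU gram
theorem div : T_DIV := Pool.Agent.H18.C1.pf_DIV
theorem fla : T_FLA := Pool.Agent.H19.C1.pf_FLA sym dif dec div
theorem flb : T_FLB := Pool.Agent.H1.C1.pf_FLB sym dif plu fla
theorem hrd : T_HRD := Pool.Agent.H3.C1.pf_HRD div
theorem apx : T_APX := Pool.Agent.H18.C1.pf_APX
theorem flx : T_FLX := Pool.Agent.H79.C1.pf_FLX sym dif dec flb hrd apx
theorem idn : T_IDN := Pool.Agent.H54.C1.pf_IDN sym dif apx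
theorem hwa : T_HWA := Pool.Agent.H34.C1.pf_HWA sym flx idn
theorem wf : T_WF := Pool.Agent.H19.C1.pf_WF
theorem wl2 : T_WL2 := Pool.Agent.H3.C1.pf_WL2 sym plu wf
theorem pt : T_PT := Pool.Agent.H22.C1.pf_PT k1
theorem int : T_INT := Pool.Agent.H19.C1.pf_INT
theorem jen : T_JEN := Pool.Agent.H54.C1.pf_JEN
theorem scl : T_SCL := Pool.Agent.H22.C1.pf_SCL
theorem hol : T_HOL := Pool.Agent.H90.C1.pf_HOL
theorem der : T_DER := Pool.Agent.H18.C1.pf_DER sym
theorem lowv : T_LOWV := pf_LOWV kbv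
theorem asm : T_ASM := pf_ASM ple yg
theorem sum : T_SUM := Pool.Agent.H19.C1.pf_SUM

theorem hw : T_HW := Pool.Agent.H54.C1.pf_HW sym hwa wf
theorem tw : T_TW := Pool.Agent.H27.C1.pf_TW hw wl2
theorem twg : T_TWG := Pool.Agent.H27.C1.pf_TWG tw wl2
theorem kia : T_KIA := Pool.Agent.H27.C1.pf_KIA twg wl2 pt int
theorem kib : T_KIB := Pool.Agent.H34.C1.pf_KIB twg pt jen
theorem kis : T_KIS := Pool.Agent.H22.C1.pf_KIS kia kib
theorem res : T_RES := Pool.Agent.H90.C1.pf_RES kis scl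
theorem sch : T_SCH := Pool.Agent.H19.C1.pf_SCH

end Pool.Agent.H94.C1.Chain
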