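import Pool.Agent.H84.BR.ClaimDefs

/-!
Definitions for the statement of `MP_ee74d2_an.SparseSets`.
-/

set_option autoImplicit false

namespace Pool.Agent.H94.C1.CD

open MeasureTheory Pool.Agent.H84.BR.CD
open scoped NNReal ENNReal

/-- `E` is closed and has dimension at most `a` at the scales between `δ` and `1`, with the
constant `A`: `|E| ≤ A δ^{d-a}` and `|E ∩ B(x,r)| ≤ A δ^{d-a} r^a` for `x ∈ E`, `δ ≤ r ≤ 1` -/
def DimLe {d : ℕ} (A a δ : ℝ) (E : Set (EE d)) : Prop :=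
  IsClosed E ∧ volume E ≤ ENNReal.ofReal (A * δ ^ ((d : ℝ) - a)) ∧
    ∀ x ∈ E, ∀ r : ℝ, δ ≤ r → r ≤ 1 →
      volume (E ∩ Metric.ball x r) ≤ ENNReal.ofReal (A * δ ^ ((d : ℝ) - a) * r ^ a)

/-- `‖u₀‖_p + ∑_j ‖G_j‖_p` -/
noncomputable def pairN {d : ℕ} (p : ℝ) (u₀ : EE d → ℂ) (G : Fin d → EE d → ℂ) : ℝ≥0∞ :=
  eLpNorm u₀ (ENNReal.ofReal p) volume + ∑ j, eLpNorm (G j) (ENNReal.ofReal p) volume

/-- `‖∇^K u₀‖_p + ∑_j ‖∇^K G_j‖_p` -/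
noncomputable def pairD {d : ℕ} (K : ℕ) (p : ℝ) (u₀ : EE d → ℂ) (G : Fin d → EE d → ℂ) : ℝ≥0∞ :=
  eLpNorm (iteratedFDeriv ℝ K u₀) (ENNReal.ofReal p) volume +
    ∑ j, eLpNorm (iteratedFDeriv ℝ K (G j)) (ENNReal.ofReal p) volume

/-- the divergence `∑_j ∂_j G_j` -/
noncomputable def divG {d : ℕ} (G : Fin d → EE d → ℂ) (x : EE d) : ℂ :=
  ∑ j, fderiv ℝ (G j) x (EuclideanSpace.single j 1)

end Pool.Agent.H94.C1.CD
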