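import Pool.Agent.H82.KL.Targets
import Pool.Agent.H83.LS.Targets3

/-!
Local smoothing for data carried by sparse sets, all dimensions: definitions.
`e x = exp(2πix)`, `U b (x,t) = ∫ e(x·ξ + t|ξ|) b(ξ) dξ`, `W a f (x,t) = ∫ U a (x-y,t) f(y) dy`.
-/

set_option autoImplicit false

namespace Pool.Agent.H94.C1

open MeasureTheory Set FourierTransform Pool.Agent.H82.KL
open scoped ENNReal NNReal SchwartzMap

/-- the `j`-th unit vector -/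
noncomputable abbrev ei {d : ℕ} (j : Fin d) : EE d := EuclideanSpace.single j (1 : ℝ)

/-- the symbol `ξ_j b` -/
noncomputable def mc {d : ℕ} (j : Fin d) (b : EE d → ℂ) (ξ : EE d) : ℂ := ((ξ j : ℝ) : ℂ) * b ξ

/-- the symbol `|ξ| b` -/
noncomputable def mn {d : ℕ} (b : EE d → ℂ) (ξ : EE d) : ℂ := ((‖ξ‖ : ℝ) : ℂ) * b ξ

/-- the symbol `∂_j b` -/
noncomputable def pd {d : ℕ} (j : Fin d) (b : EE d → ℂ) (ξ : EE d) : ℂ := fderiv ℝ b ξ (ei j)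

/-- the symbol `e(s|ξ|) b` -/
noncomputable def sh {d : ℕ} (s : ℝ) (b : EE d → ℂ) (ξ : EE d) : ℂ := e (s * ‖ξ‖) * b ξ

/-- `|∇H|² = ∑_j |∂_j H|²` -/
noncomputable def gr {d : ℕ} (H : EE d → ℂ) (x : EE d) : ℝ := ∑ j, ‖fderiv ℝ H x (ei j)‖ ^ 2

/-- the wave `U b` on the graph of `φ` -/
noncomputable def onG {d : ℕ} (b : EE d → ℂ) (φ : EE d → ℝ) (x : EE d) : ℂ := U b (x, φ x)

/-- `√(1+|x|²)` -/
noncomputable def hy {d : ℕ} (x : EE d) : ℝ := Real.sqrt (1 + ‖x‖ ^ 2)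

/-- `1/(1+|x|²)` -/
noncomputable def wt {d : ℕ} (x : EE d) : ℝ≥0∞ := ENNReal.ofReal (1 / (1 + ‖x‖ ^ 2))

/-- energy density (divided by `4π²`) -/
noncomputable def en {d : ℕ} (b : EE d → ℂ) (z : EE d × ℝ) : ℝ :=
  ‖U (mn b) z‖ ^ 2 + ∑ j, ‖U (mc j b) z‖ ^ 2

/-- momentum density (divided by `4π²`) -/
noncomputable def mo {d : ℕ} (b : EE d → ℂ) (j : Fin d) (z : EE d × ℝ) : ℝ :=
  2 * ((starRingEnd ℂ) (U (mn b) z) * U (mc j b) z).re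

/-- the flux through the graph of `sφ` -/
noncomputable def fl {d : ℕ} (b : EE d → ℂ) (φ : EE d → ℝ) (s : ℝ) (x : EE d) : ℝ :=
  en b (x, s * φ x) + s * ∑ j, fderiv ℝ φ x (ei j) * mo b j (x, s * φ x)

/-- bounded measurable functions with compact support -/
def BC {d : ℕ} (f : EE d → ℂ) : Prop :=
  Measurable f ∧ (∃ A : ℝ, ∀ y, ‖f y‖ ≤ A) ∧ ∃ R : ℝ, ∀ y, R < ‖y‖ → f y = 0

/-- averages over the light cone of `z`: `∫ g(y) (1+||x-y|-t|)^(-(d+8)) dy` -/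
noncomputable def av {d : ℕ} (g : EE d → ℝ≥0∞) (z : EE d × ℝ) : ℝ≥0∞ :=
  ∫⁻ y, g y * ENNReal.ofReal (((1 + abs (‖z.1 - y‖ - z.2)) ^ (d + 8))⁻¹)

/-- `∫ g(y) R²/(1+|x-y|²) dy` -/
noncomputable def ka {d : ℕ} (R : ℝ) (g : EE d → ℝ≥0∞) (x : EE d) : ℝ≥0∞ :=
  ∫⁻ y, g y * (ENNReal.ofReal (R ^ 2) * wt (x - y))

/-- `∫ g(y) |x-y|^(-2) dy` -/
noncomputable def k2 {d : ℕ} (g : EE d → ℝ≥0∞) (x : EE d) : ℝ≥0∞ :=
  ∫⁻ y, g y * (‖x - y‖ₑ ^ 2)⁻¹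

/-- the right side of the kernel inequality -/
noncomputable def KK {d : ℕ} (p : ℝ) (u : EE d → ℂ) : ℝ≥0∞ :=
  if p ≤ 3 then ∫⁻ x, ‖u x‖ₑ ^ 2 * (k2 (fun y => ‖u y‖ₑ) x) ^ (p - 2)
  else ∫⁻ x, ‖u x‖ₑ ^ 2 * k2 (fun y => ‖u y‖ₑ ^ (p - 2)) x

/-- the half wave operator `e(εt|D|) a(D/λ)` -/
noncomputable def HP {d : ℕ} (a : EE d → ℂ) (ε lam t : ℝ) (u : EE d → ℂ) (x : EE d) : ℂ :=
  H83.LS.MM (fun ξ => e (ε * t * ‖ξ‖) * a (lam⁻¹ • ξ)) u x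

end Pool.Agent.H94.C1
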