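import Pool.Agent.H73.LS.Core
import Pool.Agent.H94.C1.Targets

/-!
# The high frequencies (first half of the row FIN of the board `c1_modules`)
-/

set_option autoImplicit false

namespace Pool.Agent.H94.C1

open MeasureTheory Set Filter FourierTransform
open scoped ENNReal NNReal SchwartzMap
open Pool.Agent.H73.LS (measurable_F integrable_F)
open H83.LS (MK MM eta0 chi)
open H82.KL

variable {d : ℕ}

/-- a multiplier which is a combination of half wave operators at each frequency -/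
def Half (c : ℝ → EE d → ℝ) (b : EE d → ℂ) : Prop :=
  ∃ κ₁ κ₂ : ℂ, ‖κ₁‖ ≤ 1 ∧ ‖κ₂‖ ≤ 1 ∧ ∀ (t lam : ℝ) (ξ : EE d), 0 < lam →
    ((c t ξ * chi (‖ξ‖ / lam) : ℝ) : ℂ) = κ₁ * (e (1 * t * ‖ξ‖) * b (lam⁻¹ • ξ)) +
      κ₂ * (e (-1 * t * ‖ξ‖) * b (lam⁻¹ • ξ))

lemma norm_e (x : ℝ) : ‖e x‖ = 1 := H83.LS.norm_e x

lemma continuous_e : Continuous e := H83.LS.continuous_e

lemma sym_bdd {b : EE d → ℂ} (hb : Sym b) : ∃ B : ℝ, ∀ ξ, ‖b ξ‖ ≤ B :=
  hb.2.1.exists_bound_of_continuous hb.1.continuous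

lemma integrable_HP {b : EE d → ℂ} (hb : Sym b) (ε lam t : ℝ) (u : 𝓢(EE d, ℂ)) (x : EE d) :
    Integrable (fun ξ : EE d => H83.LS.e (inner ℝ x ξ) * ((e (ε * t * ‖ξ‖) * b (lam⁻¹ • ξ)) *
      𝓕 (u : EE d → ℂ) ξ)) := by
  obtain ⟨B, hB⟩ := sym_bdd hb
  have hu := integrable_F u
  refine Integrable.mono' (hu.norm.const_mul B) ?_ (Eventually.of_forall fun ξ => ?_)
  · refine AEStronglyMeasurable.mul ?_ (AEStronglyMeasurable.mul ?_ hu.1)
    · exact (H83.LS.continuous_e.comp (by fun_prop)).aestronglyMeasurable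
    · exact ((continuous_e.comp (by fun_prop)).mul
        (hb.1.continuous.comp (by fun_prop))).aestronglyMeasurable
  · rw [norm_mul, norm_mul, norm_mul, H83.LS.norm_e, norm_e, one_mul, one_mul]
    exact mul_le_mul_of_nonneg_right (hB _) (norm_nonneg _)

lemma measurable_HP {b : EE d → ℂ} (hb : Sym b) (ε lam : ℝ) (u : 𝓢(EE d, ℂ)) :
    Measurable (fun q : ℝ × EE d => HP b ε lam q.1 u q.2) := by
  unfold HP MM
  have h1 : Measurable (fun z : (ℝ × EE d) × EE d =>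
      H83.LS.e (inner ℝ z.1.2 z.2) * ((e (ε * z.1.1 * ‖z.2‖) * b (lam⁻¹ • z.2)) *
        𝓕 (u : EE d → ℂ) z.2)) := by
    refine Measurable.mul ?_ (Measurable.mul ?_ ?_)
    · exact (H83.LS.continuous_e.comp (by fun_prop)).measurable
    · exact ((continuous_e.comp (by fun_prop)).mul
        (hb.1.continuous.comp (by fun_prop))).measurable
    · exact (measurable_F u).comp measurable_snd
  exact (h1.stronglyMeasurable.integral_prod_right').measurable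

/-- one frequency -/
lemma half_piece {c : ℝ → EE d → ℝ} {b : EE d → ℂ} (hb : Sym b) (hc : Half c b) (p : ℝ)
    (hp : 1 ≤ p) (lam : ℝ) (hl : 0 < lam) (u : 𝓢(EE d, ℂ)) (X : ℝ≥0∞)
    (hX : ∀ ε : ℝ, (ε = 1 ∨ ε = -1) →
      ∫⁻ t in Icc (1 : ℝ) 2, ∫⁻ x : EE d, ‖HP b ε lam t u x‖ₑ ^ p ≤ X) :
    (∫⁻ t in Icc (1 : ℝ) 2, ∫⁻ x : EE d, ‖MM (fun ξ =>
      ((c t ξ * chi (‖ξ‖ / lam) : ℝ) : ℂ)) u x‖ₑ ^ p) ^ (1 / p) ≤ 2 * X ^ (1 / p) := by
  have hp0 : 0 < p := lt_of_lt_of_le one_pos hp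
  obtain ⟨κ₁, κ₂, h1, h2, h3⟩ := hc
  have hpt : ∀ (t : ℝ) (x : EE d), ‖MM (fun ξ => ((c t ξ * chi (‖ξ‖ / lam) : ℝ) : ℂ)) u x‖ₑ ≤
      ‖HP b 1 lam t u x‖ₑ + ‖HP b (-1) lam t u x‖ₑ := by
    intro t x
    have h4 : MM (fun ξ => ((c t ξ * chi (‖ξ‖ / lam) : ℝ) : ℂ)) u x =
        κ₁ * HP b 1 lam t u x + κ₂ * HP b (-1) lam t u x := by
      unfold HP MM
      rw [← integral_const_mul, ← integral_const_mul,
        ← integral_add ((integrable_HP hb 1 lam t u x).const_mul κ₁)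
          ((integrable_HP hb (-1) lam t u x).const_mul κ₂)]
      refine integral_congr_ae (Eventually.of_forall fun ξ => ?_)
      beta_reduce
      rw [h3 t lam ξ hl]
      ring
    rw [h4]
    refine (enorm_add_le _ _).trans (add_le_add ?_ ?_)
    · rw [enorm_mul]
      have h5 : ‖κ₁‖ₑ ≤ 1 := by
        rw [← ofReal_norm, ← ENNReal.ofReal_one]
        exact ENNReal.ofReal_le_ofReal h1
      calc ‖κ₁‖ₑ * ‖HP b 1 lam t u x‖ₑ ≤ 1 * ‖HP b 1 lam t u x‖ₑ := mul_le_mul' h5 le_rfl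
        _ = _ := one_mul _
    · rw [enorm_mul]
      have h5 : ‖κ₂‖ₑ ≤ 1 := by
        rw [← ofReal_norm, ← ENNReal.ofReal_one]
        exact ENNReal.ofReal_le_ofReal h2
      calc ‖κ₂‖ₑ * ‖HP b (-1) lam t u x‖ₑ ≤ 1 * ‖HP b (-1) lam t u x‖ₑ := mul_le_mul' h5 le_rfl
        _ = _ := one_mul _
  set ν : Measure (ℝ × EE d) := ((volume : Measure ℝ).restrict (Icc 1 2)).prod volume with hν
  have m1 := (measurable_HP hb 1 lam u).enorm
  have m2 := (measurable_HP hb (-1) lam u).enorm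
  have e1 : ∀ ε : ℝ, ∫⁻ q : ℝ × EE d, ‖HP b ε lam q.1 u q.2‖ₑ ^ p ∂ν =
      ∫⁻ t in Icc (1 : ℝ) 2, ∫⁻ x : EE d, ‖HP b ε lam t u x‖ₑ ^ p := by
    intro ε
    rw [hν, lintegral_prod _ (((measurable_HP hb ε lam u).enorm.pow_const p).aemeasurable)]
  have h6 : ∫⁻ t in Icc (1 : ℝ) 2, ∫⁻ x : EE d, ‖MM (fun ξ =>
      ((c t ξ * chi (‖ξ‖ / lam) : ℝ) : ℂ)) u x‖ₑ ^ p ≤
      ∫⁻ q : ℝ × EE d, (‖HP b 1 lam q.1 u q.2‖ₑ + ‖HP b (-1) lam q.1 u q.2‖ₑ) ^ p ∂ν := by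
    have m3 : Measurable (fun q : ℝ × EE d =>
        (‖HP b 1 lam q.1 u q.2‖ₑ + ‖HP b (-1) lam q.1 u q.2‖ₑ) ^ p) :=
      (m1.add m2).pow_const p
    rw [hν, lintegral_prod _ m3.aemeasurable]
    refine lintegral_mono fun t => lintegral_mono fun x => ?_
    exact ENNReal.rpow_le_rpow (hpt t x) hp0.le
  have h7 := ENNReal.lintegral_Lp_add_le (μ := ν) (p := p) m1.aemeasurable m2.aemeasurable hp
  refine (ENNReal.rpow_le_rpow h6 (by positivity)).trans (h7.trans ?_)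
  rw [two_mul]
  refine add_le_add (ENNReal.rpow_le_rpow ?_ (by positivity))
    (ENNReal.rpow_le_rpow ?_ (by positivity))
  · rw [e1]; exact hX 1 (Or.inl rfl)
  · rw [e1]; exact hX (-1) (Or.inr rfl)

/-- the parameters of the theorem -/
structure Par (d K : ℕ) (p a σ A M : ℝ) : Prop where
  hd : 3 ≤ d
  hp : 2 * (d : ℝ) / (d - 1) ≤ p
  hA : 0 ≤ A
  hM : 0 ≤ M
  hσ : σ ≤ 1 / p
  hσa : σ < (d - a) * min 1 (p - 2) / p
  hK : ((d : ℝ) - 1) * (1 / 2 - 1 / p) < K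

/-- the hypotheses on the set -/
def Thin (a A δ : ℝ) (E : Set (EE d)) : Prop := 0 < δ ∧ δ ≤ 1 ∧ IsClosed E ∧
  volume E ≤ ENNReal.ofReal (A * δ ^ ((d : ℝ) - a)) ∧
  (∀ x ∈ E, ∀ r : ℝ, δ ≤ r → r ≤ 1 →
    volume (E ∩ Metric.ball x r) ≤ ENNReal.ofReal (A * δ ^ ((d : ℝ) - a) * r ^ a))

lemma Par.p2 {K : ℕ} {p a σ A M : ℝ} (h : Par d K p a σ A M) :
    2 / ((d : ℝ) - 1) ≤ p - 2 ∧ 0 < (d : ℝ) - 1 ∧ 2 < p := by
  have hd : (3 : ℝ) ≤ d := by exact_mod_cast h.hd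
  have h1 : 0 < (d : ℝ) - 1 := by linarith
  have h2 : 2 / ((d : ℝ) - 1) ≤ p - 2 := by
    have h3 : 2 / ((d : ℝ) - 1) = 2 * (d : ℝ) / (d - 1) - 2 := by
      field_simp
      ring
    rw [h3]
    linarith [h.hp]
  have h4 : 0 < 2 / ((d : ℝ) - 1) := by positivity
  exact ⟨h2, h1, by linarith⟩

/-- the exponent `τ = pσ/min(1,p-2)` -/
lemma Par.tau {K : ℕ} {p a σ A M : ℝ} (h : Par d K p a σ A M) :
    p * σ / min 1 (p - 2) ≤ (d : ℝ) - 2 ∧ p * σ / min 1 (p - 2) < d - a := by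
  obtain ⟨h2, h1, hp⟩ := h.p2
  have hd : (3 : ℝ) ≤ d := by exact_mod_cast h.hd
  have hm : 0 < min 1 (p - 2) := lt_min one_pos (by linarith)
  have hp0 : 0 < p := by linarith
  constructor
  · rw [div_le_iff₀ hm]
    have h3 : p * σ ≤ 1 := by
      calc p * σ ≤ p * (1 / p) := mul_le_mul_of_nonneg_left h.hσ hp0.le
        _ = 1 := by field_simp
    have h4 : 2 / ((d : ℝ) - 1) ≤ min 1 (p - 2) := by
      refine le_min ?_ h2
      rw [div_le_one h1]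
      linarith
    have h5 : 1 ≤ ((d : ℝ) - 2) * (2 / ((d : ℝ) - 1)) := by
      rw [← mul_div_assoc, le_div_iff₀ h1]
      linarith
    calc p * σ ≤ 1 := h3
      _ ≤ ((d : ℝ) - 2) * (2 / ((d : ℝ) - 1)) := h5
      _ ≤ ((d : ℝ) - 2) * min 1 (p - 2) := mul_le_mul_of_nonneg_left h4 (by linarith)
  · rw [div_lt_iff₀ hm]
    have h3 := h.hσa
    rw [lt_div_iff₀ hp0] at h3
    linarith

lemma eLp_eq {F : Type*} [NormedAddCommGroup F] (p : ℝ) (hp : 0 < p) (f : EE d → F) :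
    eLpNorm f (ENNReal.ofReal p) volume = (∫⁻ x, ‖f x‖ₑ ^ p) ^ (1 / p) := by
  rw [eLpNorm_eq_lintegral_rpow_enorm_toReal (by simpa using hp) ENNReal.ofReal_ne_top,
    ENNReal.toReal_ofReal hp.le]

lemma lint_eq {F : Type*} [NormedAddCommGroup F] (p : ℝ) (hp : 0 < p) (f : EE d → F) :
    ∫⁻ x, ‖f x‖ₑ ^ p = eLpNorm f (ENNReal.ofReal p) volume ^ p := by
  rw [eLp_eq p hp, ← ENNReal.rpow_mul, one_div, inv_mul_cancel₀ hp.ne', ENNReal.rpow_one]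

/-- the sum over the high frequencies -/
theorem high (hP : T_PIE) (hS : T_SCH) (hSum : T_SUM) (K : ℕ) (p a σ A M : ℝ)
    (hpar : Par d K p a σ A M) (c : ℝ → EE d → ℝ) (b : EE d → ℂ) (hb : Sym b) (hc : Half c b) :
    ∃ C : ℝ≥0, ∀ (δ : ℝ) (E : Set (EE d)) (u : 𝓢(EE d, ℂ)) (B : ℝ≥0∞), Thin a A δ E →
    (∀ x, x ∉ E → u x = 0) → eLpNorm u (ENNReal.ofReal p) volume ≤ B →
    ENNReal.ofReal (δ ^ K) * eLpNorm (iteratedFDeriv ℝ K u) (ENNReal.ofReal p) volume ≤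
      ENNReal.ofReal M * B →
    ∑' j : ℕ, (∫⁻ t in Icc (1 : ℝ) 2, ∫⁻ x : EE d, ‖MM (fun ξ =>
      ((c t ξ * chi (‖ξ‖ / 2 ^ (j + 1)) : ℝ) : ℂ)) u x‖ₑ ^ p) ^ (1 / p) ≤
    C * ENNReal.ofReal (δ ^ (-(((d : ℝ) - 1) * (1 / 2 - 1 / p) - σ))) * B := by
  obtain ⟨hp2, hd1, hp⟩ := hpar.p2
  obtain ⟨hτ1, hτ2⟩ := hpar.tau
  have hp0 : 0 < p := by linarith
  have hm : 0 < min 1 (p - 2) := lt_min one_pos (by linarith)
  set m := min 1 (p - 2) with hmdef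
  set τ := p * σ / m with hτ
  set s := ((d : ℝ) - 1) * (1 / 2 - 1 / p) with hs
  have hs0 : 0 < s := by
    rw [hs]
    refine mul_pos hd1 ?_
    have : 1 / p < 1 / 2 := one_div_lt_one_div_of_lt (by norm_num) hp
    linarith
  have hsp : ((d : ℝ) - 1) * (p - 2) / 2 = s * p := by
    rw [hs]
    field_simp
  obtain ⟨C0, hC0⟩ := hP d 0 p b hpar.hd hp hb
  obtain ⟨CK, hCK⟩ := hP d K p b hpar.hd hp hb
  obtain ⟨CS, hCS⟩ := hS d a τ A hpar.hd hpar.hA hτ1 hτ2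
  obtain ⟨C1, hC1⟩ := hSum s K hs0 hpar.hK
  -- constants
  set D : ℝ≥0 := 2 * (CS ^ (m / p) * (C0 ^ (1 / p) + CK ^ (1 / p) * M.toNNReal)) with hD
  refine ⟨D * C1, fun δ E u N hE hu hN hfreq => ?_⟩
  obtain ⟨hδ, hδ1, hEc, hE1, hE2⟩ := hE
  set NK := eLpNorm (iteratedFDeriv ℝ K u) (ENNReal.ofReal p) volume with hNK
  set S : ℝ≥0∞ := CS * ENNReal.ofReal (δ ^ τ) with hSdef
  have hSE : ∀ x ∈ E, ∫⁻ y in E, (‖x - y‖ₑ ^ 2)⁻¹ ≤ S := fun x hx =>
    hCS δ E x hδ hδ1 hE1 (hE2 x hx)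
  have hNK1 : NK ≤ ENNReal.ofReal (δ ^ (-(K : ℝ))) * (ENNReal.ofReal M * N) := by
    calc NK = (ENNReal.ofReal (δ ^ (-(K : ℝ))) * ENNReal.ofReal (δ ^ K)) * NK := by
          rw [← ENNReal.ofReal_mul (by positivity), Real.rpow_neg hδ.le, Real.rpow_natCast,
            inv_mul_cancel₀ (by positivity), ENNReal.ofReal_one, one_mul]
      _ = ENNReal.ofReal (δ ^ (-(K : ℝ))) * (ENNReal.ofReal (δ ^ K) * NK) := by ring
      _ ≤ _ := mul_le_mul' le_rfl hfreq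
  have hSm : (S ^ m) ^ (1 / p) = CS ^ (m / p) * ENNReal.ofReal (δ ^ σ) := by
    rw [← ENNReal.rpow_mul, hSdef, ENNReal.mul_rpow_of_nonneg _ _ (by positivity),
      ENNReal.ofReal_rpow_of_nonneg (by positivity) (by positivity), ← Real.rpow_mul hδ.le]
    congr 2
    · congr 1
      ring
    · congr 1
      rw [hτ]
      field_simp
  have hpow : ∀ (C : ℝ≥0) (x : ℝ) (Y : ℝ≥0∞), 0 ≤ x →
      (C * ENNReal.ofReal x * S ^ m * Y ^ p) ^ (1 / p) =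
        C ^ (1 / p) * ENNReal.ofReal (x ^ (1 / p)) * (CS ^ (m / p) * ENNReal.ofReal (δ ^ σ)) * Y := by
    intro C x Y hx
    rw [ENNReal.mul_rpow_of_nonneg _ _ (by positivity), ENNReal.mul_rpow_of_nonneg _ _ (by positivity),
      ENNReal.mul_rpow_of_nonneg _ _ (by positivity), ENNReal.ofReal_rpow_of_nonneg hx (by positivity),
      hSm, ← ENNReal.rpow_mul Y, mul_one_div_cancel hp0.ne', ENNReal.rpow_one]
  have hDc : (D : ℝ≥0∞) = 2 * ((CS : ℝ≥0∞) ^ (m / p) * ((C0 : ℝ≥0∞) ^ (1 / p) +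
      (CK : ℝ≥0∞) ^ (1 / p) * ENNReal.ofReal M)) := by
    rw [hD]
    push_cast
    rw [ENNReal.coe_rpow_of_nonneg _ (by positivity), ENNReal.coe_rpow_of_nonneg _ (by positivity),
      ENNReal.coe_rpow_of_nonneg _ (by positivity)]
    rfl
  have hj : ∀ j : ℕ, (∫⁻ t in Icc (1 : ℝ) 2, ∫⁻ x : EE d, ‖MM (fun ξ =>
      ((c t ξ * chi (‖ξ‖ / 2 ^ (j + 1)) : ℝ) : ℂ)) u x‖ₑ ^ p) ^ (1 / p) ≤
      D * ENNReal.ofReal (δ ^ (-(s - σ))) * N * ENNReal.ofReal (min (((2 : ℝ) ^ (j + 1) * δ) ^ s)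
        (((2 : ℝ) ^ (j + 1) * δ) ^ (s - K))) := by
    intro j
    set lam : ℝ := 2 ^ (j + 1) with hlam
    have hl : 0 < lam := by positivity
    have hl1 : 1 ≤ lam := one_le_pow₀ one_le_two
    have h0 : (∫⁻ t in Icc (1 : ℝ) 2, ∫⁻ x : EE d, ‖MM (fun ξ =>
        ((c t ξ * chi (‖ξ‖ / lam) : ℝ) : ℂ)) u x‖ₑ ^ p) ^ (1 / p) ≤
        D * ENNReal.ofReal (δ ^ (-(s - σ))) * N * ENNReal.ofReal ((lam * δ) ^ s) := by
      have h1 := half_piece hb hc p (by linarith) lam hl u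
        (C0 * ENNReal.ofReal (lam ^ (s * p)) * S ^ m * N ^ p) (fun ε hε => by
          have h2 := hC0 E S lam ε u hEc hSE hl1 hε hu
          rw [Nat.cast_zero, zero_mul, sub_zero, hsp] at h2
          refine h2.trans (mul_le_mul' le_rfl ?_)
          refine le_trans (le_of_eq ?_) (ENNReal.rpow_le_rpow hN hp0.le)
          rw [← lint_eq p hp0]
          refine lintegral_congr fun x => ?_
          congr 1
          rw [← ofReal_norm, ← ofReal_norm, norm_iteratedFDeriv_zero])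
      refine h1.trans ?_
      rw [hpow C0 _ N (by positivity), ← Real.rpow_mul hl.le,
        show s * p * (1 / p) = s by field_simp]
      have h3 : ENNReal.ofReal (lam ^ s) * ENNReal.ofReal (δ ^ σ) =
          ENNReal.ofReal (δ ^ (-(s - σ))) * ENNReal.ofReal ((lam * δ) ^ s) := by
        rw [← ENNReal.ofReal_mul (by positivity), ← ENNReal.ofReal_mul (by positivity)]
        congr 1
        rw [Real.mul_rpow hl.le hδ.le, show σ = -(s - σ) + s by ring, Real.rpow_add hδ]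
        ring_nf
      calc 2 * ((C0 : ℝ≥0∞) ^ (1 / p) * ENNReal.ofReal (lam ^ s) *
            ((CS : ℝ≥0∞) ^ (m / p) * ENNReal.ofReal (δ ^ σ)) * N)
          = 2 * ((CS : ℝ≥0∞) ^ (m / p) * (C0 : ℝ≥0∞) ^ (1 / p)) *
            (ENNReal.ofReal (lam ^ s) * ENNReal.ofReal (δ ^ σ)) * N := by ring
        _ ≤ D * (ENNReal.ofReal (lam ^ s) * ENNReal.ofReal (δ ^ σ)) * N := by
            rw [hDc]
            gcongr
            exact le_self_add
        _ = _ := by rw [h3]; ring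
    have hK : (∫⁻ t in Icc (1 : ℝ) 2, ∫⁻ x : EE d, ‖MM (fun ξ =>
        ((c t ξ * chi (‖ξ‖ / lam) : ℝ) : ℂ)) u x‖ₑ ^ p) ^ (1 / p) ≤
        D * ENNReal.ofReal (δ ^ (-(s - σ))) * N * ENNReal.ofReal ((lam * δ) ^ (s - K)) := by
      have h1 := half_piece hb hc p (by linarith) lam hl u
        (CK * ENNReal.ofReal (lam ^ ((s - K) * p)) * S ^ m * NK ^ p) (fun ε hε => by
          have h2 := hCK E S lam ε u hEc hSE hl1 hε hu
          rw [hsp, ← sub_mul] at h2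
          refine h2.trans (mul_le_mul' le_rfl (le_of_eq ?_))
          rw [hNK, ← lint_eq p hp0])
      refine h1.trans ?_
      rw [hpow CK _ NK (by positivity), ← Real.rpow_mul hl.le,
        show (s - K) * p * (1 / p) = s - K by field_simp]
      have h3 : ENNReal.ofReal (lam ^ (s - K)) * ENNReal.ofReal (δ ^ σ) *
          ENNReal.ofReal (δ ^ (-(K : ℝ))) =
          ENNReal.ofReal (δ ^ (-(s - σ))) * ENNReal.ofReal ((lam * δ) ^ (s - K)) := by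
        rw [← ENNReal.ofReal_mul (by positivity), ← ENNReal.ofReal_mul (by positivity),
          ← ENNReal.ofReal_mul (by positivity)]
        congr 1
        rw [Real.mul_rpow hl.le hδ.le, mul_assoc, ← Real.rpow_add hδ,
          show δ ^ (-(s - σ)) * (lam ^ (s - K) * δ ^ (s - K)) =
            lam ^ (s - K) * (δ ^ (-(s - σ)) * δ ^ (s - K)) by ring, ← Real.rpow_add hδ]
        congr 2
        ring
      calc 2 * ((CK : ℝ≥0∞) ^ (1 / p) * ENNReal.ofReal (lam ^ (s - K)) *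
            ((CS : ℝ≥0∞) ^ (m / p) * ENNReal.ofReal (δ ^ σ)) * NK)
          ≤ 2 * ((CK : ℝ≥0∞) ^ (1 / p) * ENNReal.ofReal (lam ^ (s - K)) *
            ((CS : ℝ≥0∞) ^ (m / p) * ENNReal.ofReal (δ ^ σ)) *
              (ENNReal.ofReal (δ ^ (-(K : ℝ))) * (ENNReal.ofReal M * N))) := by
            gcongr
        _ = 2 * ((CS : ℝ≥0∞) ^ (m / p) * ((CK : ℝ≥0∞) ^ (1 / p) * ENNReal.ofReal M)) *
            (ENNReal.ofReal (lam ^ (s - K)) * ENNReal.ofReal (δ ^ σ) *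
              ENNReal.ofReal (δ ^ (-(K : ℝ)))) * N := by ring
        _ ≤ D * (ENNReal.ofReal (lam ^ (s - K)) * ENNReal.ofReal (δ ^ σ) *
              ENNReal.ofReal (δ ^ (-(K : ℝ)))) * N := by
            rw [hDc]
            gcongr
            exact le_add_self
        _ = _ := by rw [h3]; ring
    rcases le_total ((lam * δ) ^ s) ((lam * δ) ^ (s - K)) with h | h
    · rw [min_eq_left h]; exact h0
    · rw [min_eq_right h]; exact hK
  calc _ ≤ ∑' j : ℕ, D * ENNReal.ofReal (δ ^ (-(s - σ))) * N * ENNReal.ofReal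
        (min (((2 : ℝ) ^ (j + 1) * δ) ^ s) (((2 : ℝ) ^ (j + 1) * δ) ^ (s - K))) :=
        ENNReal.tsum_le_tsum hj
    _ = D * ENNReal.ofReal (δ ^ (-(s - σ))) * N * ∑' j : ℕ, ENNReal.ofReal
        (min (((2 : ℝ) ^ (j + 1) * δ) ^ s) (((2 : ℝ) ^ (j + 1) * δ) ^ (s - K))) :=
        ENNReal.tsum_mul_left
    _ ≤ D * ENNReal.ofReal (δ ^ (-(s - σ))) * N * C1 := mul_le_mul' le_rfl (hC1 δ hδ hδ1)
    _ = _ := by
        push_cast
        ring

end Pool.Agent.H94.C1
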